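import Mathlib
import Pool.Agent.TH951.NF.SU

/-! Vanishing sums of almost units split into vanishing sums with bounded ratios. -/

set_option autoImplicit false

open Finset Height TH951.NF

namespace Pool.Agent.R496.CZ

theorem fin_height (B : ℝ) : ∃ F : Finset ℚ, ∀ q : ℚ, logHeight₁ q ≤ B → q ∈ F := by
  classical
  obtain ⟨N, hN⟩ := exists_nat_ge (Real.exp B)
  refine ⟨(Finset.Icc (-(N : ℤ)) N ×ˢ Finset.range (N + 1)).image
    (fun p => ((p.1 : ℚ) / (p.2 : ℚ))), fun q hq => ?_⟩
  rw [Rat.logHeight₁_eq_log_max] at hq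
  have hden : 1 ≤ q.den := q.den_pos
  have hmax : 1 ≤ max q.num.natAbs q.den := hden.trans (le_max_right _ _)
  have h1 : ((max q.num.natAbs q.den : ℕ) : ℝ) ≤ N := by
    have h2 : (0 : ℝ) < ((max q.num.natAbs q.den : ℕ) : ℝ) := by exact_mod_cast hmax
    exact ((Real.log_le_iff_le_exp h2).1 hq).trans hN
  have h2 : max q.num.natAbs q.den ≤ N := by exact_mod_cast h1
  have h3 : q.num.natAbs ≤ N := (le_max_left _ _).trans h2
  have h4 : q.den ≤ N := (le_max_right _ _).trans h2
  refine mem_image.2 ⟨(q.num, q.den), mem_product.2 ⟨mem_Icc.2 ?_, mem_range.2 (by omega)⟩,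
    Rat.num_div_den q⟩
  constructor <;> (simp only; omega)

theorem partner (D : ℕ) (hD : D ≠ 0) (n c : ℕ) (hc : 0 < c) : ∃ F : Finset ℚ,
    ∀ (J : Type) [Fintype J], Fintype.card J ≤ n → ∀ u : J → ℚ, (∀ j, u j ≠ 0) →
      ∑ j, u j = 0 → (∀ j, Alm D c (u j)) → ∀ i, ∃ j, j ≠ i ∧ u i / u j ∈ F := by
  classical
  choose A hA0 hA using fun m => unit_eq D hD m
  obtain ⟨F, hF⟩ := fin_height (8 * n * Real.log c + ∑ m ∈ range (n + 1), A m)
  refine ⟨F, fun J _ hJ u hu hs ha i => ?_⟩
  obtain ⟨j, hj, hh⟩ := PC_congr (Fintype.equivFin J).symm (hA (Fintype.card J)) u hu hs c hc ha i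
  refine ⟨j, hj, hF _ (hh.trans ?_)⟩
  have h1 : 0 ≤ Real.log c := Real.log_nonneg (by exact_mod_cast hc)
  have h2 : (Fintype.card J : ℝ) ≤ n := by exact_mod_cast hJ
  have h3 : A (Fintype.card J) ≤ ∑ m ∈ range (n + 1), A m :=
    single_le_sum (f := A) (fun m _ => hA0 m) (mem_range.2 (by omega))
  have h4 : 8 * (Fintype.card J : ℝ) * Real.log c ≤ 8 * n * Real.log c := by
    apply mul_le_mul_of_nonneg_right _ h1
    linarith
  linarith

theorem fin_sums (F : Finset ℚ) (k : ℕ) : ∃ S : Finset ℚ, ∀ (J : Type) (s : Finset J)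
    (f : J → ℚ), s.card ≤ k → (∀ j ∈ s, f j ∈ F) → ∑ j ∈ s, f j ∈ S := by
  classical
  induction k with
  | zero =>
    refine ⟨{0}, fun J s f hs _ => ?_⟩
    have : s = ∅ := card_eq_zero.1 (by omega)
    subst this; simp
  | succ k ih =>
    obtain ⟨S, hS⟩ := ih
    refine ⟨S ∪ Finset.image₂ (· + ·) F S, fun J s f hs hf => ?_⟩
    rcases s.eq_empty_or_nonempty with rfl | ⟨a, ha⟩
    · exact mem_union_left _ (hS J ∅ f (by simp) (by simp))
    · rw [← Finset.add_sum_erase _ _ ha]
      refine mem_union_right _ (Finset.mem_image₂_of_mem (hf a ha) (hS J _ f ?_ ?_))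
      · rw [card_erase_of_mem ha]; omega
      · exact fun j hj => hf j (mem_of_mem_erase hj)

theorem clus_aux (D : ℕ) (hD : D ≠ 0) (n c : ℕ) (hc : 0 < c) (m : ℕ) : ∀ F0 : Finset ℚ,
    ∃ F : Finset ℚ, ∀ (J : Type) [Fintype J] [DecidableEq J], Fintype.card J ≤ n →
      ∀ θ : J → ℚ, (∀ j, θ j ≠ 0) → ∑ j, θ j = 0 → (∀ j, Alm D c (θ j)) → ∀ κ : J → J,
      (∀ j, κ (κ j) = κ j) → (∀ j, θ j / θ (κ j) ∈ F0) →
      (univ.filter fun i => ∑ j with κ j = i, θ j ≠ 0).card ≤ m →
      ∃ κ' : J → J, (∀ i, ∑ j with κ' j = i, θ j = 0) ∧ ∀ j, θ j / θ (κ' j) ∈ F := by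
  classical
  induction m with
  | zero =>
    intro F0
    refine ⟨F0, fun J _ _ hJ θ h0 hs ha κ hκ hF hm => ⟨κ, fun i => ?_, hF⟩⟩
    have h1 := card_eq_zero.1 (Nat.le_zero.1 hm)
    by_contra h
    have h2 : i ∈ univ.filter fun i => ∑ j with κ j = i, θ j ≠ 0 := by
      simpa using h
    rw [h1] at h2
    simp at h2
  | succ m ih =>
    intro F0
    obtain ⟨S, hS⟩ := fin_sums F0 n
    set c' : ℕ := ∏ r ∈ S.filter (· ≠ 0), (r.num.natAbs * r.den) with hc'
    have hc'0 : 0 < c' := prod_pos fun r hr =>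
      Nat.mul_pos (Int.natAbs_pos.2 (Rat.num_ne_zero.2 (mem_filter.1 hr).2)) r.den_pos
    obtain ⟨F1, hF1⟩ := partner D hD n (c * c') (Nat.mul_pos hc hc'0)
    set F2 : Finset ℚ := F0 ∪ Finset.image₂ (· * ·) F0
      (Finset.image₂ (· * ·) F1 (Finset.image₂ (· / ·) S S)) with hF2
    obtain ⟨Fa, hFa⟩ := ih F0
    obtain ⟨Fb, hFb⟩ := ih F2
    refine ⟨Fa ∪ Fb, fun J _ _ hJ θ h0 hs ha κ hκ hF hm => ?_⟩
    set U : J → ℚ := fun i => ∑ j with κ j = i, θ j with hU
    by_cases hm' : (univ.filter fun i => U i ≠ 0).card ≤ m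
    · obtain ⟨κ', h1, h2⟩ := hFa J hJ θ h0 hs ha κ hκ hF hm'
      exact ⟨κ', h1, fun j => mem_union_left _ (h2 j)⟩
    obtain ⟨i, hi⟩ : (univ.filter fun i => U i ≠ 0).Nonempty := by
      rw [← card_pos]; omega
    have hi0 : U i ≠ 0 := (mem_filter.1 hi).2
    have hfix : ∀ k, U k ≠ 0 → κ k = k := by
      intro k hk
      by_contra hne
      apply hk
      apply sum_eq_zero
      intro j hj
      have h1 := (mem_filter.1 hj).2
      exact absurd (by rw [← h1, hκ] : κ k = k) hne
    have hr : ∀ k, U k ≠ 0 → U k / θ k ∈ S := by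
      intro k hk
      rw [hU]
      simp only
      rw [sum_div]
      refine hS J _ _ ((card_le_univ _).trans hJ) fun j hj => ?_
      have h1 := (mem_filter.1 hj).2
      have h2 := hF j
      rwa [h1] at h2
    have hUA : ∀ k, U k ≠ 0 → Alm D (c * c') (U k) := by
      intro k hk
      have h1 : U k / θ k ≠ 0 := div_ne_zero hk (h0 k)
      have h2 : Alm D c' (U k / θ k) := by
        refine (Alm.rat h1).of_dvd ?_
        exact dvd_prod_of_mem (fun r : ℚ => r.num.natAbs * r.den)
          (mem_filter.2 ⟨hr k hk, h1⟩)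
      have h3 := (ha k).mul h2
      rwa [mul_div_cancel₀ _ (h0 k)] at h3
    -- the partner
    have hsumU : ∑ k, U k = 0 := by
      rw [← hs, hU]
      exact sum_fiberwise_of_maps_to (fun _ _ => mem_univ _) θ
    obtain ⟨⟨i', hi'0⟩, hii', hrat⟩ := hF1 {k : J // U k ≠ 0}
      ((Fintype.card_subtype_le _).trans hJ) (fun k => U k.1) (fun k => k.2) (by
        have h1 : ∑ k : {k : J // U k ≠ 0}, U k.1 = ∑ k ∈ univ.filter (fun k => U k ≠ 0), U k :=
          (Finset.sum_subtype (univ.filter fun k => U k ≠ 0) (by simp) U).symm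
        rw [h1, sum_filter_of_ne (fun k _ hk => hk), hsumU]) (fun k => hUA k.1 k.2) ⟨i, hi0⟩
    have hne : i' ≠ i := fun h => hii' (Subtype.ext h)
    have hratio : θ i / θ i' ∈ Finset.image₂ (· * ·) F1 (Finset.image₂ (· / ·) S S) := by
      have h1 : θ i / θ i' = (U i / U i') * ((U i' / θ i') / (U i / θ i)) := by
        have := h0 i
        have := h0 i'
        field_simp
      rw [h1]
      exact mem_image₂_of_mem hrat (mem_image₂_of_mem (hr i' hi'0) (hr i hi0))
    set κ2 : J → J := fun j => if κ j = i then i' else κ j with hκ2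
    have hκ2i : ∀ j, κ2 (κ2 j) = κ2 j := by
      intro j
      by_cases hj : κ j = i
      · simp only [hκ2, hj, if_true]
        rw [if_neg (by rw [hfix i' hi'0]; exact hne), hfix i' hi'0]
      · simp only [hκ2, hj, if_false]
        rw [hκ, if_neg hj]
    have hκ2F : ∀ j, θ j / θ (κ2 j) ∈ F2 := by
      intro j
      by_cases hj : κ j = i
      · simp only [hκ2, hj, if_true]
        have h1 : θ j / θ i' = (θ j / θ (κ j)) * (θ i / θ i') := by
          rw [hj]
          have := h0 i
          field_simp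
        rw [h1, hF2]
        exact mem_union_right _ (mem_image₂_of_mem (hF j) hratio)
      · simp only [hκ2, hj, if_false]
        exact mem_union_left _ (hF j)
    have hcard : (univ.filter fun k => ∑ j with κ2 j = k, θ j ≠ 0).card ≤ m := by
      have hsub : (univ.filter fun k => ∑ j with κ2 j = k, θ j ≠ 0) ⊆
          (univ.filter fun k => U k ≠ 0).erase i := by
        intro k hk
        have hk' := (mem_filter.1 hk).2
        have hki : k ≠ i := by
          rintro rfl
          apply hk'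
          apply sum_eq_zero
          intro j hj
          exfalso
          have h1 := (mem_filter.1 hj).2
          simp only [hκ2] at h1
          split_ifs at h1 with h2
          · exact hne h1
          · exact h2 h1
        refine mem_erase.2 ⟨hki, mem_filter.2 ⟨mem_univ _, ?_⟩⟩
        by_cases hki' : k = i'
        · rw [hki']; exact hi'0
        · intro hU0
          apply hk'
          rw [← hU0, hU]
          simp only
          refine sum_congr ?_ fun _ _ => rfl
          ext j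
          simp only [mem_filter, mem_univ, true_and, hκ2]
          split_ifs with h2
          · constructor
            · intro h3; exact absurd h3.symm hki'
            · intro h3; exact absurd (h3.symm.trans h2) hki
          · rfl
      have h1 := card_le_card hsub
      rw [card_erase_of_mem hi] at h1
      have h2 : (univ.filter fun k => U k ≠ 0).card ≤ m + 1 := hm
      omega
    obtain ⟨κ', h1, h2⟩ := hFb J hJ θ h0 hs ha κ2 hκ2i hκ2F hcard
    exact ⟨κ', h1, fun j => mem_union_right _ (h2 j)⟩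

/-- the theorem on `S`-unit equations, in terms of clusters -/
theorem clus (D : ℕ) (hD : D ≠ 0) (n c : ℕ) (hc : 0 < c) : ∃ F : Finset ℚ,
    ∀ (J : Type) [Fintype J] [DecidableEq J], Fintype.card J ≤ n →
      ∀ θ : J → ℚ, (∀ j, θ j ≠ 0) → ∑ j, θ j = 0 → (∀ j, Alm D c (θ j)) →
      ∃ κ : J → J, (∀ i, ∑ j with κ j = i, θ j = 0) ∧ ∀ j, θ j / θ (κ j) ∈ F := by
  obtain ⟨F, hF⟩ := clus_aux D hD n c hc n {1}
  refine ⟨F, fun J _ _ hJ θ h0 hs ha => ?_⟩
  exact hF J hJ θ h0 hs ha id (fun _ => rfl) (fun j => by simp [h0 j])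
    ((card_le_univ _).trans hJ)

end Pool.Agent.R496.CZ
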