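import Mathlib

/-! Chain complexes with bases, uniformly bounded fillings, product with the half line. -/

set_option autoImplicit false

namespace Pool.Agent.R496.CZ

open Finset Finsupp

section basic

variable {R : Type} [CommRing R] {A B W : Type}

/-- the number of basis elements in a chain -/
noncomputable def sz (x : A →₀ R) : ℕ := x.support.card

theorem sz_zero : sz (0 : A →₀ R) = 0 := by simp [sz]

theorem sz_add (x y : A →₀ R) : sz (x + y) ≤ sz x + sz y := by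
  classical
  exact (card_le_card support_add).trans (card_union_le _ _)

theorem sz_neg (x : A →₀ R) : sz (-x) = sz x := by simp [sz]

theorem sz_sub (x y : A →₀ R) : sz (x - y) ≤ sz x + sz y := by
  rw [sub_eq_add_neg]
  exact (sz_add _ _).trans (by rw [sz_neg])

theorem sz_smul (c : R) (x : A →₀ R) : sz (c • x) ≤ sz x :=
  card_le_card support_smul

theorem sz_sum {ι : Type*} (s : Finset ι) (f : ι → A →₀ R) :
    sz (∑ i ∈ s, f i) ≤ ∑ i ∈ s, sz (f i) := by
  classical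
  induction s using Finset.induction_on with
  | empty => simp [sz_zero]
  | insert a s ha ih =>
    rw [sum_insert ha, sum_insert ha]
    exact (sz_add _ _).trans (Nat.add_le_add_left ih _)

theorem sz_single (a : A) (r : R) : sz (single a r) ≤ 1 := by
  classical
  exact (card_le_card support_single_subset).trans (by simp)

theorem sz_map (f : A → B) (x : A →₀ R) : sz (mapDomain f x) ≤ sz x := by
  classical
  exact (card_le_card mapDomain_support).trans card_image_le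

theorem sz_eq_zero {x : A →₀ R} (h : sz x = 0) : x = 0 := by
  simpa [sz] using h

/-- a linear map which is bounded on the basis -/
def Bdd (T : (A →₀ R) →ₗ[R] (B →₀ R)) (K : ℕ) : Prop := ∀ a, sz (T (single a 1)) ≤ K

theorem lin_apply (T : (A →₀ R) →ₗ[R] (B →₀ R)) (x : A →₀ R) :
    T x = ∑ a ∈ x.support, x a • T (single a 1) := by
  conv_lhs => rw [← Finsupp.sum_single x, Finsupp.sum, map_sum]
  refine sum_congr rfl fun a _ => ?_
  rw [← map_smul]
  simp

theorem Bdd.le {T : (A →₀ R) →ₗ[R] (B →₀ R)} {K : ℕ} (h : Bdd T K) (x : A →₀ R) :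
    sz (T x) ≤ sz x * K := by
  rw [lin_apply]
  refine (sz_sum _ _).trans ?_
  refine (sum_le_card_nsmul _ _ K fun a _ => (sz_smul _ _).trans (h a)).trans ?_
  simp [sz]

theorem Bdd.comp {T : (A →₀ R) →ₗ[R] (B →₀ R)} {T' : (B →₀ R) →ₗ[R] (W →₀ R)} {K K' : ℕ}
    (h : Bdd T K) (h' : Bdd T' K') : Bdd (T' ∘ₗ T) (K * K') := fun a => by
  rw [LinearMap.comp_apply]
  exact (h'.le _).trans (Nat.mul_le_mul_right _ (h a))

/-- bounded liftings on the basis give bounded linear liftings -/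
theorem exists_lin (T : (A →₀ R) →ₗ[R] (B →₀ R)) (E : (W →₀ R) →ₗ[R] (B →₀ R)) (K : ℕ)
    (h : ∀ a, ∃ w, sz w ≤ K ∧ E w = T (single a 1)) :
    ∃ F : (A →₀ R) →ₗ[R] (W →₀ R), Bdd F K ∧ ∀ x, E (F x) = T x := by
  choose w hw hE using h
  refine ⟨Finsupp.linearCombination R w, fun a => by simpa using hw a, fun x => ?_⟩
  have : E ∘ₗ Finsupp.linearCombination R w = T := by
    refine Finsupp.lhom_ext fun a r => ?_
    rw [LinearMap.comp_apply, Finsupp.linearCombination_single, map_smul, hE, ← map_smul]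
    simp
  rw [← this]; rfl

/-! ### Slices -/

theorem inj_pair (m : ℕ) : Function.Injective (fun a : A => (a, m)) := fun a b h => by
  simpa using h

/-- the chain `x` in the slice `m` -/
noncomputable def emb (m : ℕ) : (A →₀ R) →ₗ[R] (A × ℕ →₀ R) :=
  Finsupp.lmapDomain R R (fun a => (a, m))

/-- the slice `m` of a chain -/
noncomputable def sl (m : ℕ) : (A × ℕ →₀ R) →ₗ[R] (A →₀ R) :=
  Finsupp.lcomapDomain (fun a => (a, m)) (inj_pair m)

theorem sl_apply (m : ℕ) (x : A × ℕ →₀ R) (a : A) : sl m x a = x (a, m) := rfl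

theorem sl_single (m n : ℕ) (a : A) (r : R) :
    sl n (single (a, m) r) = if n = m then single a r else 0 := by
  classical
  ext b
  rw [sl_apply, single_apply]
  split_ifs with h1 h2 h2
  · have := (Prod.mk.inj h1).1; subst this; simp
  · exact absurd (Prod.mk.inj h1).2.symm h2
  · subst h2
    rw [single_apply, if_neg]
    intro h; subst h; exact h1 rfl
  · simp

theorem emb_single (m : ℕ) (a : A) (r : R) : emb m (single a r) = single (a, m) r := by
  simp [emb, Finsupp.lmapDomain_apply, mapDomain_single]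

theorem sl_emb (m n : ℕ) (x : A →₀ R) : sl n (emb m x) = if n = m then x else 0 := by
  have h : (sl n ∘ₗ emb m : (A →₀ R) →ₗ[R] (A →₀ R)) = if n = m then LinearMap.id else 0 := by
    refine Finsupp.lhom_ext fun a r => ?_
    rw [LinearMap.comp_apply, emb_single, sl_single]
    split_ifs <;> simp
  have h2 := congrArg (fun f => f x) h
  simp only [LinearMap.comp_apply] at h2
  rw [h2]
  split_ifs <;> simp

theorem sl_ext {x y : A × ℕ →₀ R} (h : ∀ n, sl n x = sl n y) : x = y := by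
  ext ⟨a, n⟩
  rw [← sl_apply, h, sl_apply]

theorem sz_emb (m : ℕ) (x : A →₀ R) : sz (emb m x) ≤ sz x := sz_map _ _

theorem sz_sl (m : ℕ) (x : A × ℕ →₀ R) : sz (sl m x) ≤ sz x := by
  classical
  unfold sz
  refine card_le_card_of_injOn (fun a => (a, m)) ?_ ((inj_pair m).injOn)
  intro a ha
  simp only [Finset.mem_coe, Finsupp.mem_support_iff, ne_eq] at ha ⊢
  exact ha

/-- the map `D` on all slices -/
noncomputable def xt (D : (A →₀ R) →ₗ[R] (B →₀ R)) : (A × ℕ →₀ R) →ₗ[R] (B × ℕ →₀ R) :=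
  Finsupp.lsum R fun am : A × ℕ => (emb am.2) ∘ₗ D ∘ₗ Finsupp.lsingle am.1

theorem xt_single (D : (A →₀ R) →ₗ[R] (B →₀ R)) (a : A) (m : ℕ) (r : R) :
    xt D (single (a, m) r) = emb m (D (single a r)) := by
  simp [xt]

theorem sl_xt (D : (A →₀ R) →ₗ[R] (B →₀ R)) (n : ℕ) (x : A × ℕ →₀ R) :
    sl n (xt D x) = D (sl n x) := by
  have h : sl n ∘ₗ xt D = D ∘ₗ sl n := by
    refine Finsupp.lhom_ext fun ⟨a, m⟩ r => ?_
    rw [LinearMap.comp_apply, LinearMap.comp_apply, xt_single, sl_emb, sl_single]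
    split_ifs <;> simp
  exact congrArg (fun f => f x) h

/-- the shift -/
noncomputable def sh : (A × ℕ →₀ R) →ₗ[R] (A × ℕ →₀ R) :=
  Finsupp.lmapDomain R R (fun am => (am.1, am.2 + 1))

theorem sl_zero_sh (x : A × ℕ →₀ R) : sl 0 (sh x) = 0 := by
  have h : (sl 0 ∘ₗ sh : (A × ℕ →₀ R) →ₗ[R] (A →₀ R)) = 0 := by
    refine Finsupp.lhom_ext fun ⟨a, m⟩ r => ?_
    simp only [LinearMap.comp_apply, sh, Finsupp.lmapDomain_apply, mapDomain_single]
    rw [sl_single]; simp
  exact congrArg (fun f => f x) h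

theorem sl_succ_sh (n : ℕ) (x : A × ℕ →₀ R) : sl (n + 1) (sh x) = sl n x := by
  have h : (sl (n + 1) ∘ₗ sh : (A × ℕ →₀ R) →ₗ[R] (A →₀ R)) = sl n := by
    refine Finsupp.lhom_ext fun ⟨a, m⟩ r => ?_
    simp only [LinearMap.comp_apply, sh, Finsupp.lmapDomain_apply, mapDomain_single]
    rw [sl_single, sl_single]; simp
  exact congrArg (fun f => f x) h

theorem sz_sh (x : A × ℕ →₀ R) : sz (sh x) ≤ sz x := sz_map _ _

/-- the operator `1 - shift` -/
noncomputable def ph : (A × ℕ →₀ R) →ₗ[R] (A × ℕ →₀ R) := LinearMap.id - sh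

theorem ph_apply (x : A × ℕ →₀ R) : ph x = x - sh x := rfl

theorem sz_ph (x : A × ℕ →₀ R) : sz (ph x) ≤ 2 * sz x := by
  rw [ph_apply]
  refine (sz_sub _ _).trans ?_
  have := sz_sh x
  omega

theorem xt_sh (D : (A →₀ R) →ₗ[R] (B →₀ R)) (x : A × ℕ →₀ R) : xt D (sh x) = sh (xt D x) := by
  refine sl_ext fun n => ?_
  rcases n with _ | n
  · rw [sl_xt, sl_zero_sh, sl_zero_sh, map_zero]
  · rw [sl_xt, sl_succ_sh, sl_succ_sh, sl_xt]

theorem xt_ph (D : (A →₀ R) →ₗ[R] (B →₀ R)) (x : A × ℕ →₀ R) : xt D (ph x) = ph (xt D x) := by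
  rw [ph_apply, ph_apply, map_sub, xt_sh]

theorem xt_xt {D : (A →₀ R) →ₗ[R] (B →₀ R)} {D' : (B →₀ R) →ₗ[R] (W →₀ R)}
    (h : ∀ x, D' (D x) = 0) (x : A × ℕ →₀ R) : xt D' (xt D x) = 0 :=
  sl_ext fun n => by rw [sl_xt, sl_xt, h, map_zero]

theorem slice_fill (E : (W →₀ R) →ₗ[R] (B →₀ R)) (z : B × ℕ →₀ R) (K : ℕ)
    (h : ∀ n, sl n z ≠ 0 → ∃ w, sz w ≤ K ∧ E w = sl n z) :
    ∃ w : W × ℕ →₀ R, sz w ≤ sz z * K ∧ xt E w = z := by
  classical
  have h' : ∀ n, ∃ w : W →₀ R, sz w ≤ K ∧ E w = sl n z := by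
    intro n
    by_cases hn : sl n z = 0
    · exact ⟨0, by rw [sz_zero]; exact Nat.zero_le _, by rw [map_zero, hn]⟩
    · exact h n hn
  choose w hw hE using h'
  set M : Finset ℕ := z.support.image Prod.snd with hM
  have hMc : M.card ≤ sz z := card_image_le
  have hMz : ∀ n, n ∉ M → sl n z = 0 := by
    intro n hn
    ext b
    rw [sl_apply, Finsupp.coe_zero, Pi.zero_apply]
    by_contra hb
    exact hn (mem_image.2 ⟨(b, n), Finsupp.mem_support_iff.2 hb, rfl⟩)
  refine ⟨∑ m ∈ M, emb m (w m), ?_, ?_⟩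
  · refine (sz_sum _ _).trans ?_
    refine (sum_le_card_nsmul _ _ K fun m _ => (sz_emb _ _).trans (hw m)).trans ?_
    rw [smul_eq_mul]
    exact Nat.mul_le_mul_right _ hMc
  · refine sl_ext fun n => ?_
    rw [sl_xt, map_sum]
    have h1 : ∀ m ∈ M, sl n (emb m (w m)) = if n = m then w n else 0 := by
      intro m _
      rw [sl_emb]
      split_ifs with h <;> simp [h]
    rw [sum_congr rfl h1, Finset.sum_ite_eq]
    split_ifs with h
    · exact hE n
    · rw [map_zero, hMz n h]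

/-- injectivity of `1 - shift` on homology in degree zero, with bounds -/
theorem ph_inj (E : (W →₀ R) →ₗ[R] (B →₀ R)) (v : B × ℕ →₀ R) (u : W × ℕ →₀ R)
    (h : ph v = xt E u) : ∃ w : W × ℕ →₀ R, sz w ≤ sz v * sz u ∧ xt E w = v := by
  classical
  -- partial sums
  have key : ∀ n, ∃ w : W →₀ R, (sz w ≤ ∑ i ∈ range (n + 1), sz (sl i u)) ∧ E w = sl n v := by
    intro n
    induction n with
    | zero =>
      refine ⟨sl 0 u, by simp, ?_⟩
      rw [← sl_xt, ← h, ph_apply, map_sub, sl_zero_sh, sub_zero]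
    | succ n ih =>
      obtain ⟨w, hw, hE⟩ := ih
      refine ⟨w + sl (n + 1) u, ?_, ?_⟩
      · rw [sum_range_succ]
        exact (sz_add _ _).trans (Nat.add_le_add_right hw _)
      · rw [map_add, hE, ← sl_xt, ← h, ph_apply, map_sub, sl_succ_sh]
        abel
  have htot : ∀ n, ∑ i ∈ range n, sz (sl i u) ≤ sz u := by
    intro n
    unfold sz
    rw [← card_sigma]
    refine card_le_card_of_injOn (fun p => (p.2, p.1)) ?_ ?_
    · rintro ⟨i, a⟩ hp
      simp only [coe_sigma, Set.mem_sigma_iff, Finset.mem_coe, Finsupp.mem_support_iff] at hp ⊢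
      exact hp.2
    · rintro ⟨i, a⟩ _ ⟨j, b⟩ _ hab
      simp only [Prod.mk.injEq] at hab
      obtain ⟨h1, h2⟩ := hab
      subst h1; subst h2; rfl
  refine slice_fill E v (sz u) fun n _ => ?_
  obtain ⟨w, hw, hE⟩ := key n
  exact ⟨w, hw.trans (htot _), hE⟩

end basic

/-- a chain complex of free modules with bases -/
structure Cx (R : Type) [CommRing R] where
  /-- the basis in degree `k` -/
  S : ℕ → Type
  /-- the boundary -/
  d : ∀ k, (S (k + 1) →₀ R) →ₗ[R] (S k →₀ R)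
  dd : ∀ k x, d k (d (k + 1) x) = 0

variable {R : Type} [CommRing R]

/-- cycles of bounded size in positive degrees have fillings of bounded size -/
def UA (C : Cx R) : Prop := ∀ k L, ∃ K, ∀ z : C.S (k + 1) →₀ R, C.d k z = 0 → sz z ≤ L →
  ∃ w : C.S (k + 2) →₀ R, sz w ≤ K ∧ C.d (k + 1) w = z

/-- the boundary is bounded in every degree -/
def BD (C : Cx R) : Prop := ∀ k, ∃ K, Bdd (C.d k) K

/-- the cells of the product with the half line -/
def PS (S : ℕ → Type) : ℕ → Type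
  | 0 => S 0 × ℕ
  | k + 1 => (S (k + 1) × ℕ) ⊕ (S k × ℕ)

/-- splitting of chains -/
noncomputable def spl (A B : Type) : (A ⊕ B →₀ R) ≃ₗ[R] (A →₀ R) × (B →₀ R) :=
  Finsupp.sumFinsuppLEquivProdFinsupp R

theorem spl_fst {A B : Type} (z : A ⊕ B →₀ R) (a : A) : (spl A B z).1 a = z (Sum.inl a) := rfl
theorem spl_snd {A B : Type} (z : A ⊕ B →₀ R) (b : B) : (spl A B z).2 b = z (Sum.inr b) := rfl

theorem sz_spl_fst {A B : Type} (z : A ⊕ B →₀ R) : sz (spl A B z).1 ≤ sz z := by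
  classical
  unfold sz
  refine card_le_card_of_injOn Sum.inl ?_ Sum.inl_injective.injOn
  intro a ha
  simp only [Finset.mem_coe, Finsupp.mem_support_iff] at ha ⊢
  exact ha

theorem sz_spl_snd {A B : Type} (z : A ⊕ B →₀ R) : sz (spl A B z).2 ≤ sz z := by
  classical
  unfold sz
  refine card_le_card_of_injOn Sum.inr ?_ Sum.inr_injective.injOn
  intro a ha
  simp only [Finset.mem_coe, Finsupp.mem_support_iff] at ha ⊢
  exact ha

theorem sz_spl_symm {A B : Type} (u : A →₀ R) (v : B →₀ R) :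
    sz ((spl A B).symm (u, v)) ≤ sz u + sz v := by
  have h : (spl A B).symm (u, v) = mapDomain Sum.inl u + mapDomain Sum.inr v := by
    classical
    rw [LinearEquiv.symm_apply_eq]
    refine Prod.ext ?_ ?_
    · ext a
      rw [spl_fst, Finsupp.add_apply, mapDomain_apply Sum.inl_injective,
        mapDomain_of_notMem_range _ _ (by simp), add_zero]
    · ext a
      rw [spl_snd, Finsupp.add_apply, mapDomain_apply Sum.inr_injective,
        mapDomain_of_notMem_range _ _ (by simp), zero_add]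
  rw [h]
  exact (sz_add _ _).trans (Nat.add_le_add (sz_map _ _) (sz_map _ _))

/-- splitting of the chains of the product -/
noncomputable def sp (S : ℕ → Type) (k : ℕ) : (PS S (k + 1) →₀ R) ≃ₗ[R]
    (S (k + 1) × ℕ →₀ R) × (S k × ℕ →₀ R) := spl (S (k + 1) × ℕ) (S k × ℕ)

theorem sz_sp_fst {S : ℕ → Type} {k : ℕ} (z : PS S (k + 1) →₀ R) : sz (sp S k z).1 ≤ sz z :=
  sz_spl_fst (A := S (k + 1) × ℕ) (B := S k × ℕ) z

theorem sz_sp_snd {S : ℕ → Type} {k : ℕ} (z : PS S (k + 1) →₀ R) : sz (sp S k z).2 ≤ sz z :=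
  sz_spl_snd (A := S (k + 1) × ℕ) (B := S k × ℕ) z

theorem sz_sp_symm {S : ℕ → Type} {k : ℕ} (u : S (k + 1) × ℕ →₀ R) (v : S k × ℕ →₀ R) :
    sz ((sp S k).symm (u, v)) ≤ sz u + sz v :=
  sz_spl_symm (A := S (k + 1) × ℕ) (B := S k × ℕ) u v

/-- the boundary of the product -/
noncomputable def pd (C : Cx R) : ∀ k, (PS C.S (k + 1) →₀ R) →ₗ[R] (PS C.S k →₀ R)
  | 0 => ((xt (C.d 0)).coprod ph) ∘ₗ (sp C.S 0).toLinearMap
  | k + 1 => (sp C.S k).symm.toLinearMap ∘ₗ
      (((xt (C.d (k + 1))).coprod ph).prod (-(xt (C.d k)) ∘ₗ LinearMap.snd R _ _)) ∘ₗ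
        (sp C.S (k + 1)).toLinearMap

theorem pd_zero (C : Cx R) (z : PS C.S 1 →₀ R) : pd C 0 z =
    (xt (C.d 0) (sp C.S 0 z).1 + ph (sp C.S 0 z).2 : C.S 0 × ℕ →₀ R) := rfl

theorem pd_succ (C : Cx R) (k : ℕ) (z : PS C.S (k + 2) →₀ R) : pd C (k + 1) z =
    (sp C.S k).symm (xt (C.d (k + 1)) (sp C.S (k + 1) z).1 + ph (sp C.S (k + 1) z).2,
        -(xt (C.d k) (sp C.S (k + 1) z).2)) := rfl

/-- the product with the half line -/
noncomputable def Cx.prod (C : Cx R) : Cx R where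
  S := PS C.S
  d := pd C
  dd := by
    intro k x
    rcases k with _ | k
    · rw [pd_zero, pd_succ, LinearEquiv.apply_symm_apply]
      simp only [map_add, map_neg]
      rw [xt_xt (C.dd 0), xt_ph]
      exact (by abel : (0 : C.S 0 × ℕ →₀ R) + ph (xt (C.d 0) (sp C.S 1 x).2) +
        -ph (xt (C.d 0) (sp C.S 1 x).2) = 0)
    · rw [pd_succ, pd_succ, LinearEquiv.apply_symm_apply]
      simp only [map_add, map_neg]
      rw [xt_xt (C.dd (k + 1)), xt_xt (C.dd k), xt_ph, neg_neg, zero_add, add_neg_cancel]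
      exact map_zero _

theorem UA.slices {C : Cx R} (h : UA C) (k L : ℕ) : ∃ K, ∀ z : C.S (k + 1) × ℕ →₀ R,
    xt (C.d k) z = 0 → sz z ≤ L → ∃ w : C.S (k + 2) × ℕ →₀ R, sz w ≤ K ∧
      xt (C.d (k + 1)) w = z := by
  obtain ⟨K, hK⟩ := h k L
  refine ⟨L * K, fun z hz hL => ?_⟩
  obtain ⟨w, hw, hE⟩ := slice_fill (C.d (k + 1)) z K fun n _ =>
    hK (sl n z) (by rw [← sl_xt, hz, map_zero]) ((sz_sl n z).trans hL)
  exact ⟨w, hw.trans (Nat.mul_le_mul_right _ hL), hE⟩

theorem UA_pd {C : Cx R} (h : UA C) (k L : ℕ) : ∃ K, ∀ z : PS C.S (k + 1) →₀ R, pd C k z = 0 →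
    sz z ≤ L → ∃ w : PS C.S (k + 2) →₀ R, sz w ≤ K ∧ pd C (k + 1) w = z := by
  -- first fill the second component
  have step : ∃ K1, ∀ z : PS C.S (k + 1) →₀ R, pd C k z = 0 → sz z ≤ L →
      ∃ w : C.S (k + 1) × ℕ →₀ R, sz w ≤ K1 ∧
        xt (C.d k) w = (sp C.S k z).2 := by
    rcases k with _ | k
    · refine ⟨L * L, fun z hz hL => ?_⟩
      rw [pd_zero] at hz
      obtain ⟨w, hw, hE⟩ := ph_inj (C.d 0) (sp C.S 0 z).2
        (-(sp C.S 0 z).1) (by
          rw [map_neg]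
          exact eq_neg_of_add_eq_zero_right hz)
      refine ⟨w, hw.trans ?_, hE⟩
      rw [sz_neg]
      exact Nat.mul_le_mul ((sz_sp_snd z).trans hL) ((sz_sp_fst z).trans hL)
    · obtain ⟨K, hK⟩ := h.slices k L
      refine ⟨K, fun z hz hL => ?_⟩
      rw [pd_succ, LinearEquiv.map_eq_zero_iff, Prod.mk_eq_zero, neg_eq_zero] at hz
      exact hK _ hz.2 ((sz_sp_snd z).trans hL)
  obtain ⟨K1, hK1⟩ := step
  obtain ⟨K2, hK2⟩ := h.slices k (L + 2 * K1)
  refine ⟨K2 + K1, fun z hz hL => ?_⟩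
  obtain ⟨w, hw, hE⟩ := hK1 z hz hL
  have hcyc : xt (C.d k) ((sp C.S k z).1 + ph w) = 0 := by
    rw [map_add, xt_ph, hE]
    rcases k with _ | k
    · exact hz
    · rw [pd_succ, LinearEquiv.map_eq_zero_iff, Prod.mk_eq_zero] at hz
      exact hz.1
  obtain ⟨w', hw', hE'⟩ := hK2 _ hcyc (by
    have h1 := sz_sp_fst z
    have h2 := sz_ph w
    have h3 := sz_add (sp C.S k z).1 (ph w)
    omega)
  refine ⟨(sp C.S (k + 1)).symm (w', -w), ?_, ?_⟩
  · have h1 := sz_sp_symm (S := C.S) (k := k + 1) w' (-w)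
    rw [sz_neg] at h1; omega
  · rw [pd_succ, LinearEquiv.apply_symm_apply]
    simp only [map_neg, neg_neg]
    rw [hE', hE, LinearEquiv.symm_apply_eq]
    refine Prod.ext ?_ rfl
    simp

theorem UA.prod {C : Cx R} (h : UA C) : UA C.prod := fun k L => UA_pd h k L

end Pool.Agent.R496.CZ
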