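import Pool.Agent.R496.CZ.Cx

/-! Coarse retractions between half line complexes: the dimension cannot drop. -/

set_option autoImplicit false

namespace Pool.Agent.R496.CZ

open Finset Finsupp

variable {R : Type} [CommRing R]

/-- bounded chain maps and homotopy in degree `k` -/
def State (C D : Cx R) (k : ℕ) : Prop :=
  ∃ (F : (C.S k →₀ R) →ₗ[R] (D.S k →₀ R)) (G : (D.S k →₀ R) →ₗ[R] (C.S k →₀ R))
    (H : (C.S k →₀ R) →ₗ[R] (C.S (k + 1) →₀ R)) (K : ℕ), Bdd F K ∧ Bdd G K ∧ Bdd H K ∧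
    (∀ e, ∃ w, sz w ≤ K ∧ D.d k w = F (C.d k (single e 1))) ∧
    (∀ e, ∃ w, sz w ≤ K ∧ C.d k w = G (D.d k (single e 1))) ∧
    (∀ x, C.d k (H (C.d k x)) = C.d k x - G (F (C.d k x)))

theorem lift_step {C D : Cx R} (hC : UA C) (hD : UA D) (bC : BD C) (bD : BD D) (k : ℕ)
    (st : State C D k) : State C D (k + 1) := by
  obtain ⟨F, G, H, K, hF, hG, hH, h1, h2, h3⟩ := st
  obtain ⟨F', hF', eF⟩ := exists_lin (F ∘ₗ C.d k) (D.d k) K (fun e => h1 e)
  obtain ⟨G', hG', eG⟩ := exists_lin (G ∘ₗ D.d k) (C.d k) K (fun e => h2 e)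
  simp only [LinearMap.comp_apply] at eF eG
  obtain ⟨B1, hB1⟩ := bC (k + 1)
  obtain ⟨B2, hB2⟩ := bD (k + 1)
  obtain ⟨B0, hB0⟩ := bC k
  obtain ⟨K1, hK1⟩ := hD k (B1 * K)
  obtain ⟨K2, hK2⟩ := hC k (B2 * K)
  obtain ⟨K3, hK3⟩ := hC k (1 + K * K + B0 * K)
  -- the homotopy
  have hz : ∀ e : C.S (k + 1), ∃ w, sz w ≤ K3 ∧ C.d (k + 1) w =
      (LinearMap.id - G' ∘ₗ F' - H ∘ₗ C.d k : (C.S (k + 1) →₀ R) →ₗ[R] (C.S (k + 1) →₀ R))
        (single e 1) := by
    intro e
    refine hK3 _ ?_ ?_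
    · simp only [LinearMap.sub_apply, LinearMap.comp_apply, LinearMap.id_apply, map_sub]
      rw [h3, eG, eF]; abel
    · simp only [LinearMap.sub_apply, LinearMap.comp_apply, LinearMap.id_apply]
      refine (sz_sub _ _).trans (Nat.add_le_add ((sz_sub _ _).trans (Nat.add_le_add
        (sz_single _ _) ?_)) ?_)
      · exact (hG'.le _).trans (Nat.mul_le_mul_right _ (hF' e))
      · exact (hH.le _).trans (Nat.mul_le_mul_right _ (hB0 e))
  obtain ⟨H', hH', eH⟩ := exists_lin _ _ _ hz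
  set M := K + K1 + K2 + K3 with hM
  refine ⟨F', G', H', M, fun e => (hF' e).trans (by omega), fun e => (hG' e).trans (by omega),
    fun e => (hH' e).trans (by omega), fun e => ?_, fun e => ?_, fun x => ?_⟩
  · obtain ⟨w, hw, hE⟩ := hK1 (F' (C.d (k + 1) (single e 1))) (by rw [eF, C.dd, map_zero])
      ((hF'.le _).trans (Nat.mul_le_mul_right _ (hB1 e)))
    exact ⟨w, hw.trans (by omega), hE⟩
  · obtain ⟨w, hw, hE⟩ := hK2 (G' (D.d (k + 1) (single e 1))) (by rw [eG, D.dd, map_zero])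
      ((hG'.le _).trans (Nat.mul_le_mul_right _ (hB2 e)))
    exact ⟨w, hw.trans (by omega), hE⟩
  · rw [eH]
    simp only [LinearMap.sub_apply, LinearMap.comp_apply, LinearMap.id_apply]
    rw [C.dd, map_zero, sub_zero]

theorem lift_all {C D : Cx R} (hC : UA C) (hD : UA D) (bC : BD C) (bD : BD D)
    (st : State C D 0) (k : ℕ) : State C D k := by
  induction k with
  | zero => exact st
  | succ k ih => exact lift_step hC hD bC bD k ih

/-- a linear isoperimetric inequality in the top degree -/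
theorem isop {C D : Cx R} (hC : UA C) (hD : UA D) (bC : BD C) (bD : BD D) (a : ℕ)
    (eC : IsEmpty (C.S (a + 2))) (eD : IsEmpty (D.S (a + 1))) (st : State C D 0) :
    ∃ K, ∀ x : C.S (a + 1) →₀ R, sz x ≤ sz (C.d a x) * K := by
  obtain ⟨F, G, H, K, hF, hG, hH, h1, h2, h3⟩ := lift_all hC hD bC bD st a
  have hF0 : ∀ x, F (C.d a x) = 0 := by
    intro x
    have : F ∘ₗ C.d a = 0 := by
      refine Finsupp.lhom_ext' fun e => LinearMap.ext_ring ?_
      obtain ⟨w, _, hw⟩ := h1 e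
      have hw0 : w = 0 := Subsingleton.elim _ _
      rw [hw0, map_zero] at hw
      simp only [LinearMap.comp_apply, Finsupp.lsingle_apply, LinearMap.zero_apply]
      exact hw.symm
    exact congrArg (fun f => f x) this
  refine ⟨K, fun x => ?_⟩
  have hx : x = H (C.d a x) := by
    obtain ⟨K', hK'⟩ := hC a (sz (x - H (C.d a x)))
    obtain ⟨w, _, hw⟩ := hK' (x - H (C.d a x)) (by
      rw [map_sub, h3, hF0, map_zero]; abel) le_rfl
    have hw0 : w = 0 := Subsingleton.elim _ _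
    rw [hw0, map_zero] at hw
    exact sub_eq_zero.1 hw.symm
  calc sz x = sz (H (C.d a x)) := by rw [← hx]
    _ ≤ _ := hH.le _

/-! ### The half line complexes -/

/-- the cell of the point -/
def S0 : ℕ → Type
  | 0 => Unit
  | _ + 1 => Empty

/-- the point -/
noncomputable def X0 (R : Type) [CommRing R] : Cx R where
  S := S0
  d := fun _ => 0
  dd := fun _ _ => rfl

/-- the cubical complex of `ℕ ^ a` -/
noncomputable def X (R : Type) [CommRing R] : ℕ → Cx R
  | 0 => X0 R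
  | a + 1 => (X R a).prod

theorem empty_X (a : ℕ) : ∀ k, a < k → IsEmpty ((X R a).S k) := by
  induction a with
  | zero =>
    intro k hk
    obtain ⟨k, rfl⟩ : ∃ k', k = k' + 1 := ⟨k - 1, by omega⟩
    change IsEmpty Empty
    infer_instance
  | succ a ih =>
    intro k hk
    obtain ⟨k, rfl⟩ : ∃ k', k = k' + 1 := ⟨k - 1, by omega⟩
    have h1 := ih (k + 1) (by omega)
    have h2 := ih k (by omega)
    change IsEmpty (((X R a).S (k + 1) × ℕ) ⊕ ((X R a).S k × ℕ))
    infer_instance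

theorem UA_X (a : ℕ) : UA (X R a) := by
  induction a with
  | zero =>
    intro k L
    refine ⟨0, fun z _ _ => ⟨0, by rw [sz_zero], ?_⟩⟩
    have := empty_X (R := R) 0 (k + 1) (by omega)
    exact Subsingleton.elim _ _
  | succ a ih => exact ih.prod

theorem sz_xt {A B : Type} {D : (A →₀ R) →ₗ[R] (B →₀ R)} {K : ℕ} (h : Bdd D K) :
    Bdd (xt D) K := by
  rintro ⟨a, m⟩
  rw [xt_single]
  exact (sz_emb _ _).trans (h a)

theorem pd_le_zero {C : Cx R} {K : ℕ} (h : Bdd (C.d 0) K) (z : PS C.S 1 →₀ R) :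
    sz (pd C 0 z) ≤ sz z * (K + 2) := by
  rw [pd_zero]
  have h1 := (sz_xt h).le (sp C.S 0 z).1
  have h2 := sz_ph (sp C.S 0 z).2
  have h3 : sz (sp C.S 0 z).1 * K ≤ sz z * K := Nat.mul_le_mul_right _ (sz_sp_fst z)
  have h4 := sz_sp_snd z
  refine (sz_add _ _).trans ((Nat.add_le_add h1 h2).trans ?_)
  rw [Nat.mul_add]
  omega

theorem pd_le_succ {C : Cx R} {k K K' : ℕ} (h : Bdd (C.d (k + 1)) K) (h' : Bdd (C.d k) K')
    (z : PS C.S (k + 2) →₀ R) : sz (pd C (k + 1) z) ≤ sz z * (K + 2 + K') := by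
  rw [pd_succ]
  refine (sz_sp_symm _ _).trans ?_
  rw [sz_neg]
  have h0 := sz_add (xt (C.d (k + 1)) (sp C.S (k + 1) z).1) (ph (sp C.S (k + 1) z).2)
  have h1 := (sz_xt h).le (sp C.S (k + 1) z).1
  have h1' := (sz_xt h').le (sp C.S (k + 1) z).2
  have h2 := sz_ph (sp C.S (k + 1) z).2
  have h3 : sz (sp C.S (k + 1) z).1 * K ≤ sz z * K := Nat.mul_le_mul_right _ (sz_sp_fst z)
  have h4 := sz_sp_snd z
  have h5 : sz (sp C.S (k + 1) z).2 * K' ≤ sz z * K' := Nat.mul_le_mul_right _ h4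
  rw [Nat.mul_add, Nat.mul_add]
  omega

theorem BD.pd {C : Cx R} (h : BD C) (k : ℕ) : ∃ K, Bdd (CZ.pd C k) K := by
  rcases k with _ | k
  · obtain ⟨K, hK⟩ := h 0
    refine ⟨1 * (K + 2), fun e => (pd_le_zero hK _).trans ?_⟩
    exact Nat.mul_le_mul_right _ (sz_single _ _)
  · obtain ⟨K, hK⟩ := h (k + 1)
    obtain ⟨K', hK'⟩ := h k
    refine ⟨1 * (K + 2 + K'), fun e => (pd_le_succ hK hK' _).trans ?_⟩
    exact Nat.mul_le_mul_right _ (sz_single _ _)

theorem BD_X (a : ℕ) : BD (X R a) := by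
  induction a with
  | zero => exact fun k => ⟨0, fun e => by
      change sz ((0 : ((X0 R).S (k + 1) →₀ R) →ₗ[R] ((X0 R).S k →₀ R)) (single e 1)) ≤ 0
      rw [LinearMap.zero_apply, sz_zero]⟩
  | succ a ih => exact fun k => ih.pd k

theorem sz_single_one {A : Type} [Nontrivial R] (a : A) : sz (single a (1 : R)) = 1 := by
  classical
  unfold sz
  rw [Finsupp.support_single _ one_ne_zero, card_singleton]

theorem sum_sz_sl {A : Type} (u : A × ℕ →₀ R) (n : ℕ) : ∑ i ∈ range n, sz (sl i u) ≤ sz u := by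
  classical
  unfold sz
  rw [← card_sigma]
  refine card_le_card_of_injOn (fun p => (p.2, p.1)) ?_ ?_
  · rintro ⟨i, a⟩ hp
    simp only [coe_sigma, Set.mem_sigma_iff, Finset.mem_coe, Finsupp.mem_support_iff] at hp ⊢
    exact hp.2
  · rintro ⟨i, a⟩ _ ⟨j, b⟩ _ hab
    simp only [Prod.mk.injEq] at hab
    obtain ⟨h1, h2⟩ := hab
    subst h1; subst h2; rfl

/-- the product of a chain with the interval `[0, n)` -/
noncomputable def bx {A : Type} (n : ℕ) (c : A →₀ R) : A × ℕ →₀ R := ∑ m ∈ range n, emb m c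

theorem sl_bx {A : Type} (n m : ℕ) (c : A →₀ R) : sl m (bx n c) = if m < n then c else 0 := by
  classical
  rw [bx, map_sum]
  have h1 : ∀ i ∈ range n, sl m (emb i c) = if m = i then c else 0 := fun i _ => sl_emb i m c
  rw [sum_congr rfl h1, Finset.sum_ite_eq]
  simp

theorem sz_bx_le {A : Type} (n : ℕ) (c : A →₀ R) : sz (bx n c) ≤ n * sz c := by
  refine (sz_sum _ _).trans ((sum_le_card_nsmul _ _ (sz c) fun m _ => sz_emb _ _).trans ?_)
  simp

theorem le_sz_bx {A : Type} (n : ℕ) (c : A →₀ R) : n * sz c ≤ sz (bx n c) := by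
  refine le_trans ?_ (sum_sz_sl _ n)
  rw [sum_congr rfl fun i hi => by rw [sl_bx, if_pos (mem_range.1 hi)]]
  simp

theorem ph_bx {A : Type} (n : ℕ) (c : A →₀ R) : ph (bx n c) = emb 0 c - emb n c := by
  refine sl_ext fun m => ?_
  rw [ph_apply, map_sub, map_sub, sl_bx, sl_emb, sl_emb]
  rcases m with _ | m
  · rw [sl_zero_sh]
    rcases n with _ | n
    · simp
    · simp
  · rw [sl_succ_sh, sl_bx, if_neg (by omega : ¬ (m + 1 = 0))]
    rcases lt_trichotomy (m + 1) n with h | h | h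
    · rw [if_pos h, if_pos (by omega), if_neg (by omega)]; simp
    · rw [if_neg (by omega), if_pos (by omega), if_pos h]
    · rw [if_neg (by omega), if_neg (by omega), if_neg (by omega)]

theorem xt_bx {A B : Type} (D : (A →₀ R) →ₗ[R] (B →₀ R)) (n : ℕ) (c : A →₀ R) :
    xt D (bx n c) = bx n (D c) := by
  refine sl_ext fun m => ?_
  rw [sl_xt, sl_bx, sl_bx]
  split_ifs <;> simp

theorem box [Nontrivial R] (n a : ℕ) : ∃ c : (X R (a + 1)).S (a + 1) →₀ R,
    n ^ (a + 1) ≤ sz c ∧ sz c ≤ n ^ (a + 1) ∧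
      sz ((X R (a + 1)).d a c) ≤ 2 * (a + 1) * n ^ a := by
  induction a with
  | zero =>
    obtain ⟨c0, hc0⟩ : ∃ c0 : (X R 0).S 0 →₀ R, sz c0 = 1 :=
      ⟨single (() : Unit) 1, sz_single_one (R := R) (A := Unit) ()⟩
    refine ⟨(sp (X R 0).S 0).symm (0, bx n c0), ?_, ?_, ?_⟩
    · have h1 := sz_sp_snd (S := (X R 0).S) (k := 0) ((sp (X R 0).S 0).symm (0, bx n c0))
      rw [LinearEquiv.apply_symm_apply] at h1
      refine le_trans ?_ h1
      refine le_trans ?_ (le_sz_bx n c0)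
      rw [hc0]; simp
    · refine (sz_sp_symm (S := (X R 0).S) (k := 0) _ _).trans ?_
      rw [sz_zero]
      have := sz_bx_le n c0
      rw [hc0] at this
      simpa using this
    · have h1 : (X R 1).d 0 ((sp (X R 0).S 0).symm (0, bx n c0)) = emb 0 c0 - emb n c0 := by
        change pd (X R 0) 0 ((sp (X R 0).S 0).symm (0, bx n c0)) = _
        rw [pd_zero, LinearEquiv.apply_symm_apply]
        simp only [map_zero, zero_add]
        exact ph_bx n c0
      rw [h1]
      refine (sz_sub (A := (X R 0).S 0 × ℕ) _ _).trans ?_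
      have h2 := sz_emb 0 c0
      have h3 := sz_emb n c0
      rw [hc0] at h2 h3
      simp only [zero_add, mul_one, pow_zero]
      omega
  | succ a ih =>
    obtain ⟨c, h1, h2, h3⟩ := ih
    refine ⟨(sp (X R (a + 1)).S (a + 1)).symm (0, bx n c), ?_, ?_, ?_⟩
    · have h4 := sz_sp_snd (S := (X R (a + 1)).S) (k := a + 1)
        ((sp (X R (a + 1)).S (a + 1)).symm (0, bx n c))
      rw [LinearEquiv.apply_symm_apply] at h4
      refine le_trans ?_ h4
      refine le_trans ?_ (le_sz_bx n c)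
      rw [pow_succ, mul_comm]
      exact Nat.mul_le_mul_left _ h1
    · refine (sz_sp_symm (S := (X R (a + 1)).S) (k := a + 1) _ _).trans ?_
      rw [sz_zero, zero_add]
      refine (sz_bx_le n c).trans ?_
      rw [pow_succ n (a + 1), mul_comm (n ^ (a + 1))]
      exact Nat.mul_le_mul_left _ h2
    · have h4 : (X R (a + 2)).d (a + 1) ((sp (X R (a + 1)).S (a + 1)).symm (0, bx n c)) =
          (sp (X R (a + 1)).S a).symm (emb 0 c - emb n c,
            -bx n ((X R (a + 1)).d a c)) := by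
        change pd (X R (a + 1)) (a + 1) ((sp (X R (a + 1)).S (a + 1)).symm (0, bx n c)) = _
        rw [pd_succ, LinearEquiv.apply_symm_apply]
        simp only [map_zero, zero_add]
        rw [ph_bx, xt_bx]
      rw [h4]
      refine (sz_sp_symm (S := (X R (a + 1)).S) (k := a) _ _).trans ?_
      rw [sz_neg]
      have h5 := sz_sub (emb 0 c) (emb n c)
      have h6 := sz_emb 0 c
      have h7 := sz_emb n c
      have h8 := sz_bx_le n ((X R (a + 1)).d a c)
      have h9 : n * sz ((X R (a + 1)).d a c) ≤ n * (2 * (a + 1) * n ^ a) :=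
        Nat.mul_le_mul_left _ h3
      have h10 : n * (2 * (a + 1) * n ^ a) = 2 * (a + 1) * n ^ (a + 1) := by ring
      have h11 : 2 * (a + 1 + 1) * n ^ (a + 1) = 2 * n ^ (a + 1) + 2 * (a + 1) * n ^ (a + 1) := by
        ring
      omega

/-- the dimension does not drop under coarse retractions -/
theorem no_drop [Nontrivial R] (a b : ℕ) (hab : b < a) (st : State (X R a) (X R b) 0) :
    False := by
  obtain ⟨a, rfl⟩ : ∃ a', a = a' + 1 := ⟨a - 1, by omega⟩
  obtain ⟨K, hK⟩ := isop (UA_X (a + 1)) (UA_X b) (BD_X (a + 1)) (BD_X b) a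
    (empty_X (a + 1) (a + 2) (by omega)) (empty_X b (a + 1) hab) st
  obtain ⟨c, h1, _, h3⟩ := box (R := R) (2 * (a + 1) * K + 1) a
  have h4 := hK c
  have h5 : sz ((X R (a + 1)).d a c) * K ≤ 2 * (a + 1) * (2 * (a + 1) * K + 1) ^ a * K :=
    Nat.mul_le_mul_right _ h3
  have h6 : (2 * (a + 1) * K + 1) ^ (a + 1) = 2 * (a + 1) * (2 * (a + 1) * K + 1) ^ a * K +
    (2 * (a + 1) * K + 1) ^ a := by ring
  have h7 : 0 < (2 * (a + 1) * K + 1) ^ a := Nat.pow_pos (by omega)
  omega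

end Pool.Agent.R496.CZ
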