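import Pool.Agent.R496.CZ.Rep

/-! Coarse retractions between the word metrics. -/

set_option autoImplicit false

namespace Pool.Agent.R496.CZ

open Finset Finsupp

/-- the data of a coarse retraction, in terms of word balls -/
structure Ret (Q1 Q2 : Finset ℕ) (f g : ℤ → ℤ) : Prop where
  f1 : ∀ r, ∃ R, ∀ x y, W Q1 r (x - y) → W Q2 R (f x - f y)
  f2 : ∃ C, ∀ x y, W Q2 C (f (x + y) - (f x + f y))
  g1 : ∀ r, ∃ R, ∀ x y, W Q2 r (x - y) → W Q1 R (g x - g y)
  g2 : ∃ C, ∀ x y, W Q1 C (g (x + y) - (g x + g y))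
  gf : ∃ C, ∀ x, W Q1 C (g (f x) - x)

theorem natAbs_mass {A : Type} (P : A →₀ ℤ) : (lc (fun _ => 1) P).natAbs ≤ l1 P := by
  rw [lc_apply, l1]
  simp only [mul_one]
  exact Int.natAbs_sum_le _ _

theorem l1_sum {A ι : Type} (s : Finset ι) (F : ι → A →₀ ℤ) :
    l1 (∑ i ∈ s, F i) ≤ ∑ i ∈ s, l1 (F i) := by
  classical
  induction s using Finset.induction_on with
  | empty => simp [l1_zero]
  | insert a s ha ih =>
    rw [sum_insert ha, sum_insert ha]
    exact (l1_add _ _).trans (Nat.add_le_add_left ih _)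

theorem l1_lin {A B : Type} (S : B → A →₀ ℤ) (N : ℕ) (hS : ∀ w, l1 (S w) ≤ N) (P : B →₀ ℤ) :
    l1 (Finsupp.linearCombination ℤ S P) ≤ l1 P * N := by
  rw [Finsupp.linearCombination_apply, Finsupp.sum]
  refine (l1_sum _ _).trans ?_
  rw [l1, Finset.sum_mul]
  refine sum_le_sum fun w _ => (l1_smul _ _).trans (Nat.mul_le_mul_left _ (hS w))

variable {p : ℕ} {Q1 Q2 : Finset ℕ} {a b : ℕ} {q1 q2 : ℕ → ℕ} {f g : ℤ → ℤ}

/-- the images of the vertices -/
theorem rep_map (hp : p.Prime) (e1 : En p Q1 a q1) (e2 : En p Q2 b q2)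
    (f1 : ∀ r, ∃ R, ∀ x y, W Q1 r (x - y) → W Q2 R (f x - f y))
    (f2 : ∃ C, ∀ x y, W Q2 C (f (x + y) - (f x + f y))) :
    ∃ N K : ℕ, ∀ v : Pt p a, ∃ R : Pt p b →₀ ℤ, lc (fun _ => 1) R = 1 ∧ l1 R ≤ N ∧
      W Q2 K (f (xx p q1 a v) - lc (xx p q2 b) R) := by
  obtain ⟨C, hC⟩ := f2
  obtain ⟨K1, hK1⟩ := quasi (A := Unit) hC p
  obtain ⟨R1, hR1⟩ := f1 2
  have h0 : W Q2 C (f 0) := by
    have := (hC 0 0).neg
    rw [add_zero] at this
    exact this.congr (by ring)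
  obtain ⟨N, K, hNK⟩ := rep hp e2 (R1 + C + K1)
  refine ⟨N + (N + 1), K, fun v => ?_⟩
  have h1 := hK1 (fun _ => xx p q1 a v) (single () (p : ℤ)) (by rw [l1_single]; simp)
  rw [lc_single, lc_single, mul_xx hp e1 v] at h1
  have h2 : W Q1 2 (((vl p q1 a v : ℤ) - 1) - 0) := by
    rw [sub_zero]
    exact (W.unit (val_QS e1 v)).sub (W.unit QS.one)
  have h3 := hR1 _ _ h2
  have h4 : W Q2 (R1 + C + K1) ((p : ℤ) * f (xx p q1 a v)) :=
    ((h3.add h0).sub h1).congr (by ring)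
  obtain ⟨P, hP1, hP2⟩ := hNK _ h4
  refine ⟨P - single (org (ZMod p) b) (lc (fun _ => 1) P - 1), ?_, ?_, ?_⟩
  · rw [map_sub, lc_single]; ring
  · refine (l1_sub _ _).trans ?_
    rw [l1_single]
    have h5 := natAbs_mass P
    omega
  · rw [map_sub, lc_single, xx_org, mul_zero, sub_zero]
    exact hP2

/-- the images of the edges are small boundaries -/
theorem edge_fill (hp : p.Prime) (e1 : En p Q1 a q1) (e2 : En p Q2 b q2)
    (hQ2 : ∀ l ∈ Q2, l.Prime)
    (f1 : ∀ r, ∃ R, ∀ x y, W Q1 r (x - y) → W Q2 R (f x - f y)) (N K : ℕ)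
    (R : Pt p a → Pt p b →₀ ℤ) (hR1 : ∀ v, lc (fun _ => 1) (R v) = 1) (hR2 : ∀ v, l1 (R v) ≤ N)
    (hR3 : ∀ v, W Q2 K (f (xx p q1 a v) - lc (xx p q2 b) (R v))) :
    ∃ K' : ℕ, ∀ e : (X (ZMod p) a).S 1, ∃ w : (X (ZMod p) b).S 1 →₀ ZMod p, sz w ≤ K' ∧
      (X (ZMod p) b).d 0 w = Finsupp.linearCombination (ZMod p) (fun v => red p b (R v))
        ((X (ZMod p) a).d 0 (single e 1)) := by
  set c : ℕ → ℤ := fun i => ((q1 i : ℤ) ^ (p - 1) - 1) / p with hc
  have hpc : ∀ i < a, (p : ℤ) * c i = (q1 i : ℤ) ^ (p - 1) - 1 := by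
    intro i hi
    have := Fact.mk hp
    refine Int.mul_ediv_cancel' ((ZMod.intCast_zmod_eq_zero_iff_dvd _ p).1 ?_)
    push_cast
    rw [ZMod.pow_card_sub_one_eq_one, sub_self]
    intro h0
    have h3 := (ZMod.natCast_eq_zero_iff (q1 i) p).1 h0
    exact e1.ne i hi ((Nat.prime_dvd_prime_iff_eq hp (e1.prime i hi)).1 h3).symm
  obtain ⟨R1, hR1'⟩ := f1 (∑ i ∈ range a, (c i).natAbs)
  obtain ⟨K', hK'⟩ := zero_det hp e2 hQ2 (N + N) (R1 + (K + K))
  refine ⟨K', fun e => ?_⟩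
  obtain ⟨v, w, i, hi, h1, h2⟩ := edge q1 (p - 1) a e
  have hp0 : (p : ℤ) ≠ 0 := by exact_mod_cast hp.ne_zero
  have h3 : xx p q1 a v - xx p q1 a w = (-(vl p q1 a v : ℤ)) * c i := by
    apply mul_left_cancel₀ hp0
    rw [mul_sub, mul_xx hp e1, mul_xx hp e1]
    have h4 : (vl p q1 a w : ℤ) = vl p q1 a v * (q1 i : ℤ) ^ (p - 1) := by
      change ((val (ZMod p) q1 (p - 1) a w : ℕ) : ℤ) = _
      rw [h2]; push_cast; rfl
    rw [h4]
    linear_combination (-(vl p q1 a v : ℤ)) * (-(hpc i hi))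
  have h5 : W Q1 (∑ i ∈ range a, (c i).natAbs) (xx p q1 a v - xx p q1 a w) := by
    rw [h3]
    refine ((W.int (c i)).mul_unit (val_QS e1 v).neg).mono ?_
    exact single_le_sum (f := fun i => (c i).natAbs) (fun _ _ => Nat.zero_le _) (mem_range.2 hi)
  have h6 := hR1' _ _ h5
  obtain ⟨w', hw1, hw2⟩ := hK' (R v - R w) (by rw [map_sub, hR1, hR1, sub_self])
    ((l1_sub _ _).trans (Nat.add_le_add (hR2 v) (hR2 w))) (by
      rw [map_sub]
      exact (h6.sub ((hR3 v).sub (hR3 w))).congr (by ring))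
  refine ⟨w', hw1, ?_⟩
  rw [hw2, h1, map_sub, map_sub, Finsupp.linearCombination_single,
    Finsupp.linearCombination_single, one_smul, one_smul]

theorem bdd_lin (N : ℕ) (R : Pt p a → Pt p b →₀ ℤ) (hR2 : ∀ v, l1 (R v) ≤ N) :
    Bdd (Finsupp.linearCombination (ZMod p) (fun v => red p b (R v))) N := by
  intro v
  rw [Finsupp.linearCombination_single, one_smul]
  exact (sz_red _).trans (hR2 v)

theorem lin_red (S : Pt p b → Pt p a →₀ ℤ) (P : Pt p b →₀ ℤ) :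
    Finsupp.linearCombination (ZMod p) (fun v => red p a (S v)) (red p b P) =
      red p a (Finsupp.linearCombination ℤ S P) := by
  induction P using Finsupp.induction_linear with
  | zero => simp only [map_zero]
  | add P P' h1 h2 => simp only [map_add, h1, h2]
  | single v c =>
    rw [red_single, Finsupp.linearCombination_single, Finsupp.linearCombination_single,
      map_zsmul, Int.cast_smul_eq_zsmul]

theorem state0 (hp : p.Prime) (e1 : En p Q1 a q1) (e2 : En p Q2 b q2)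
    (hQ1 : ∀ l ∈ Q1, l.Prime) (hQ2 : ∀ l ∈ Q2, l.Prime) (h : Ret Q1 Q2 f g) :
    State (X (ZMod p) a) (X (ZMod p) b) 0 := by
  obtain ⟨N1, K1, hR⟩ := rep_map hp e1 e2 h.f1 h.f2
  obtain ⟨N2, K2, hS⟩ := rep_map hp e2 e1 h.g1 h.g2
  choose R hR1 hR2 hR3 using hR
  choose S hS1 hS2 hS3 using hS
  obtain ⟨K3, hK3⟩ := edge_fill hp e1 e2 hQ2 h.f1 N1 K1 R hR1 hR2 hR3
  obtain ⟨K4, hK4⟩ := edge_fill hp e2 e1 hQ1 h.g1 N2 K2 S hS1 hS2 hS3
  set F := Finsupp.linearCombination (ZMod p) (fun v => red p b (R v)) with hF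
  set G := Finsupp.linearCombination (ZMod p) (fun v => red p a (S v)) with hG
  -- the homotopy
  obtain ⟨C1, hC1⟩ := h.gf
  obtain ⟨R2, hR2'⟩ := h.g1 K1
  obtain ⟨C2, hC2⟩ := h.g2
  obtain ⟨K5, hK5⟩ := quasi (A := Pt p b) hC2 N1
  obtain ⟨K6, hK6⟩ := zero_det hp e1 hQ1 (1 + N1 * N2) (C1 + (R2 + K5) + N1 * K2)
  have hz : ∀ v : Pt p a, ∃ w, sz w ≤ K6 ∧ (X (ZMod p) a).d 0 w =
      (LinearMap.id - G ∘ₗ F : (Pt p a →₀ ZMod p) →ₗ[ZMod p] (Pt p a →₀ ZMod p))
        (single v 1) := by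
    intro v
    obtain ⟨w, hw1, hw2⟩ := hK6 (single v 1 - Finsupp.linearCombination ℤ S (R v)) (by
        rw [map_sub, lc_single, Finsupp.apply_linearCombination]
        have : (⇑(lc fun _ : Pt p a => (1 : ℤ)) ∘ S) = fun _ => 1 := funext hS1
        rw [this]
        change 1 * 1 - lc (fun _ => 1) (R v) = 0
        rw [hR1]; ring) (by
        refine (l1_sub _ _).trans (Nat.add_le_add (by rw [l1_single]; rfl) ?_)
        exact (l1_lin S N2 hS2 (R v)).trans (Nat.mul_le_mul_right _ (hR2 v))) (by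
        rw [map_sub, lc_single, one_mul, Finsupp.apply_linearCombination]
        change W Q1 _ (xx p q1 a v - lc (⇑(lc (xx p q1 a)) ∘ S) (R v))
        have t1 := (hC1 (xx p q1 a v)).neg
        have t2 := hR2' _ _ (hR3 v)
        have t3 := hK5 (xx p q2 b) (R v) (hR2 v)
        have t4 := W_lc (Q := Q1) (fun w => g (xx p q2 b w) - lc (xx p q1 a) (S w)) hS3 N1 (R v)
          (hR2 v)
        have t5 : lc (fun w => g (xx p q2 b w) - lc (xx p q1 a) (S w)) (R v) =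
            lc (fun w => g (xx p q2 b w)) (R v) - lc (⇑(lc (xx p q1 a)) ∘ S) (R v) := by
          rw [lc_apply, lc_apply, lc_apply, ← sum_sub_distrib]
          exact sum_congr rfl fun w _ => by simp only [Function.comp_apply]; ring
        rw [t5] at t4
        exact ((t1.add (t2.add t3)).add t4).congr (by ring))
    refine ⟨w, hw1, ?_⟩
    rw [hw2, map_sub, red_single, ← lin_red]
    simp only [LinearMap.sub_apply, LinearMap.id_apply, LinearMap.comp_apply]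
    rw [hF, Finsupp.linearCombination_single, one_smul, Int.cast_one]
  obtain ⟨H, hH1, hH2⟩ := exists_lin _ _ _ hz
  refine ⟨F, G, H, N1 + N2 + K3 + K4 + K6, fun v => (bdd_lin N1 R hR2 v).trans (by omega),
    fun v => (bdd_lin N2 S hS2 v).trans (by omega), fun v => (hH1 v).trans (by omega),
    fun e => ?_, fun e => ?_, fun x => ?_⟩
  · obtain ⟨w, hw1, hw2⟩ := hK3 e
    exact ⟨w, hw1.trans (by omega), hw2⟩
  · obtain ⟨w, hw1, hw2⟩ := hK4 e
    exact ⟨w, hw1.trans (by omega), hw2⟩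
  · rw [hH2]
    rfl

theorem exists_En (p : ℕ) (Q : Finset ℕ) (hQ : ∀ l ∈ Q, l.Prime) :
    ∃ q, En p Q (Q.erase p).card q := by
  classical
  set e := (Q.erase p).equivFin with he
  have hm : ∀ i (h : i < (Q.erase p).card), (e.symm ⟨i, h⟩ : ℕ) ∈ Q.erase p :=
    fun i h => (e.symm ⟨i, h⟩).2
  refine ⟨fun i => if h : i < (Q.erase p).card then (e.symm ⟨i, h⟩ : ℕ) else 0, ?_, ?_, ?_, ?_, ?_⟩
  · intro i hi
    simp only [hi, dif_pos]
    exact hQ _ (mem_of_mem_erase (hm i hi))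
  · intro i hi
    simp only [hi, dif_pos]
    exact ne_of_mem_erase (hm i hi)
  · intro i hi
    simp only [hi, dif_pos]
    exact mem_of_mem_erase (hm i hi)
  · intro i hi j hj hij
    simp only [hi, hj, dif_pos] at hij
    have := e.symm.injective (Subtype.ext hij)
    exact congrArg Fin.val this
  · intro l hl hlp
    have hl' : l ∈ Q.erase p := mem_erase.2 ⟨hlp, hl⟩
    refine ⟨e ⟨l, hl'⟩, (e ⟨l, hl'⟩).2, ?_⟩
    simp

theorem card_erase_le (hp : p.Prime) (hQ1 : ∀ l ∈ Q1, l.Prime) (hQ2 : ∀ l ∈ Q2, l.Prime)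
    (h : Ret Q1 Q2 f g) : (Q1.erase p).card ≤ (Q2.erase p).card := by
  by_contra hlt
  obtain ⟨q1, e1⟩ := exists_En p Q1 hQ1
  obtain ⟨q2, e2⟩ := exists_En p Q2 hQ2
  have := Fact.mk hp
  exact no_drop (R := ZMod p) _ _ (by omega) (state0 hp e1 e2 hQ1 hQ2 h)

theorem eq_of_ret (hQ1 : ∀ l ∈ Q1, l.Prime) (hQ2 : ∀ l ∈ Q2, l.Prime)
    (h : Ret Q1 Q2 f g) (h' : Ret Q2 Q1 g f) : Q1 = Q2 := by
  have key : ∀ p : ℕ, p.Prime → (Q1.erase p).card = (Q2.erase p).card := fun p hp =>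
    le_antisymm (card_erase_le hp hQ1 hQ2 h) (card_erase_le hp hQ2 hQ1 h')
  obtain ⟨p, hp1, hp⟩ := Nat.exists_infinite_primes (Q1.sum id + Q2.sum id + 1)
  have hn1 : p ∉ Q1 := fun hm => by
    have := single_le_sum (f := id) (fun _ _ => Nat.zero_le _) hm
    simp only [id] at this hp1
    omega
  have hn2 : p ∉ Q2 := fun hm => by
    have := single_le_sum (f := id) (fun _ _ => Nat.zero_le _) hm
    simp only [id] at this hp1
    omega
  have hcard : Q1.card = Q2.card := by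
    have := key p hp
    rwa [erase_eq_of_notMem hn1, erase_eq_of_notMem hn2] at this
  refine eq_of_subset_of_card_le (fun l hl => ?_) hcard.ge
  by_contra hl2
  have h1 := key l (hQ1 l hl)
  rw [erase_eq_of_notMem hl2, card_erase_of_mem hl] at h1
  have := card_pos.2 ⟨l, hl⟩
  omega

end Pool.Agent.R496.CZ
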