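import Mathlib

/-! Word metrics on the integers with respect to products of given primes; finitely supported
integral combinations. -/

set_option autoImplicit false

namespace Pool.Agent.R496.CZ

open Finset Finsupp

/-- up to sign `s` is a product of primes in `Q` -/
def QS (Q : Finset ℕ) (s : ℤ) : Prop := s ≠ 0 ∧ ∀ l : ℕ, l.Prime → (l : ℤ) ∣ s → l ∈ Q

theorem QS.neg {Q : Finset ℕ} {s : ℤ} (h : QS Q s) : QS Q (-s) :=
  ⟨neg_ne_zero.2 h.1, fun l hl hd => h.2 l hl ((dvd_neg).1 hd)⟩

theorem QS.mul {Q : Finset ℕ} {s t : ℤ} (h : QS Q s) (h' : QS Q t) : QS Q (s * t) :=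
  ⟨mul_ne_zero h.1 h'.1, fun l hl hd => by
    rcases (Nat.prime_iff_prime_int.1 hl).dvd_or_dvd hd with h1 | h1
    · exact h.2 l hl h1
    · exact h'.2 l hl h1⟩

theorem QS.one {Q : Finset ℕ} : QS Q 1 :=
  ⟨one_ne_zero, fun l hl hd => absurd (Int.natAbs_dvd_natAbs.2 hd) (by
    simpa using hl.one_lt.ne')⟩

/-- sums of at most `k` elements -/
def W (Q : Finset ℕ) (k : ℕ) (x : ℤ) : Prop :=
  ∃ l : List ℤ, l.length ≤ k ∧ (∀ s ∈ l, QS Q s) ∧ l.sum = x

variable {Q : Finset ℕ}

theorem W.mono {k k' : ℕ} {x : ℤ} (h : W Q k x) (hk : k ≤ k') : W Q k' x := by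
  obtain ⟨l, h1, h2, h3⟩ := h
  exact ⟨l, h1.trans hk, h2, h3⟩

theorem W.zero {k : ℕ} : W Q k 0 := ⟨[], by simp, by simp, rfl⟩

theorem W.add {k k' : ℕ} {x y : ℤ} (h : W Q k x) (h' : W Q k' y) : W Q (k + k') (x + y) := by
  obtain ⟨l, h1, h2, h3⟩ := h
  obtain ⟨l', h1', h2', h3'⟩ := h'
  refine ⟨l ++ l', by rw [List.length_append]; omega, ?_, by rw [List.sum_append, h3, h3']⟩
  intro s hs
  rcases List.mem_append.1 hs with h | h
  · exact h2 s h
  · exact h2' s h

theorem W.mul_unit {k : ℕ} {x s : ℤ} (h : W Q k x) (hs : QS Q s) : W Q k (s * x) := by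
  obtain ⟨l, h1, h2, h3⟩ := h
  refine ⟨l.map (s * ·), by simpa using h1, ?_, by rw [← h3, List.sum_map_mul_left]; simp⟩
  intro t ht
  obtain ⟨u, hu, rfl⟩ := List.mem_map.1 ht
  exact hs.mul (h2 u hu)

theorem W.neg {k : ℕ} {x : ℤ} (h : W Q k x) : W Q k (-x) := by
  have := h.mul_unit (QS.one (Q := Q)).neg
  simpa using this

theorem W.sub {k k' : ℕ} {x y : ℤ} (h : W Q k x) (h' : W Q k' y) : W Q (k + k') (x - y) := by
  rw [sub_eq_add_neg]; exact h.add h'.neg

theorem W.unit {s : ℤ} (h : QS Q s) : W Q 1 s := ⟨[s], by simp, by simpa using h, by simp⟩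

theorem W.nsmul {k : ℕ} {x : ℤ} (h : W Q k x) (n : ℕ) : W Q (n * k) ((n : ℤ) * x) := by
  induction n with
  | zero => simpa using W.zero
  | succ n ih =>
    have := ih.add h
    rw [show (n + 1) * k = n * k + k by ring]
    rw [show ((n + 1 : ℕ) : ℤ) * x = (n : ℤ) * x + x by push_cast; ring]
    exact this

theorem W.zsmul {k : ℕ} {x : ℤ} (h : W Q k x) (c : ℤ) : W Q (c.natAbs * k) (c * x) := by
  rcases Int.natAbs_eq c with hc | hc
  · have := h.nsmul c.natAbs
    rwa [← hc] at this
  · have := (h.nsmul c.natAbs).neg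
    rw [← neg_mul, ← hc] at this
    exact this

theorem W.int (c : ℤ) : W Q c.natAbs c := by
  have := (W.unit (QS.one (Q := Q))).zsmul c
  simpa using this

theorem W.congr {k : ℕ} {x y : ℤ} (h : W Q k x) (e : x = y) : W Q k y := e ▸ h

/-! ### Finitely supported functions -/

section l1

variable {A : Type}

/-- the `ℓ¹` norm -/
noncomputable def l1 (P : A →₀ ℤ) : ℕ := ∑ v ∈ P.support, (P v).natAbs

theorem l1_eq (P : A →₀ ℤ) (s : Finset A) (h : P.support ⊆ s) : l1 P = ∑ v ∈ s, (P v).natAbs := by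
  refine sum_subset h fun v _ hv => ?_
  rw [Finsupp.notMem_support_iff.1 hv]; rfl

theorem l1_zero : l1 (0 : A →₀ ℤ) = 0 := by simp [l1]

theorem l1_add (P P' : A →₀ ℤ) : l1 (P + P') ≤ l1 P + l1 P' := by
  classical
  rw [l1_eq (P + P') (P.support ∪ P'.support) support_add, l1_eq P _ subset_union_left,
    l1_eq P' _ subset_union_right, ← sum_add_distrib]
  refine sum_le_sum fun v _ => ?_
  rw [Finsupp.add_apply]
  exact Int.natAbs_add_le _ _

theorem l1_neg (P : A →₀ ℤ) : l1 (-P) = l1 P := by simp [l1]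

theorem l1_sub (P P' : A →₀ ℤ) : l1 (P - P') ≤ l1 P + l1 P' := by
  rw [sub_eq_add_neg]
  exact (l1_add _ _).trans (by rw [l1_neg])

theorem l1_single (v : A) (c : ℤ) : l1 (single v c) = c.natAbs := by
  classical
  rw [l1_eq (single v c) {v} support_single_subset]; simp

theorem l1_smul (c : ℤ) (P : A →₀ ℤ) : l1 (c • P) ≤ c.natAbs * l1 P := by
  rw [l1_eq (c • P) P.support support_smul, l1, Finset.mul_sum]
  refine sum_le_sum fun v _ => ?_
  rw [Finsupp.smul_apply, smul_eq_mul, Int.natAbs_mul]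

theorem card_le_l1 (P : A →₀ ℤ) : P.support.card ≤ l1 P := by
  rw [l1, Finset.card_eq_sum_ones]
  refine sum_le_sum fun v hv => ?_
  exact Int.natAbs_pos.2 (Finsupp.mem_support_iff.1 hv)

theorem apply_le_l1 (P : A →₀ ℤ) (v : A) : (P v).natAbs ≤ l1 P := by
  by_cases hv : v ∈ P.support
  · exact single_le_sum (f := fun v => (P v).natAbs) (fun _ _ => Nat.zero_le _) hv
  · rw [Finsupp.notMem_support_iff.1 hv]; exact Nat.zero_le _

/-- removing one unit -/
theorem l1_peel (P : A →₀ ℤ) (hP : P ≠ 0) : ∃ (v : A) (ε : ℤ) (P' : A →₀ ℤ),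
    (ε = 1 ∨ ε = -1) ∧ P = P' + single v ε ∧ l1 P' + 1 = l1 P := by
  classical
  obtain ⟨v, hv⟩ := Finsupp.support_nonempty_iff.2 hP
  have hv0 : P v ≠ 0 := Finsupp.mem_support_iff.1 hv
  set ε : ℤ := (P v).sign with hε
  have hε1 : ε = 1 ∨ ε = -1 := by
    rcases lt_trichotomy (P v) 0 with h | h | h
    · right; rw [hε, Int.sign_eq_neg_one_of_neg h]
    · exact absurd h hv0
    · left; rw [hε, Int.sign_eq_one_of_pos h]
  refine ⟨v, ε, P - single v ε, hε1, by abel, ?_⟩
  have hs : (P - single v ε).support ⊆ P.support := by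
    intro w hw
    rw [Finsupp.mem_support_iff] at hw ⊢
    intro h
    apply hw
    rw [Finsupp.sub_apply, h]
    by_cases hwv : v = w
    · subst hwv; exact absurd h hv0
    · rw [single_apply, if_neg hwv]; rfl
  rw [l1_eq _ _ hs, l1, ← Finset.add_sum_erase _ _ hv, ← Finset.add_sum_erase _ _ hv]
  have h1 : ∑ w ∈ P.support.erase v, ((P - single v ε) w).natAbs =
      ∑ w ∈ P.support.erase v, (P w).natAbs := by
    refine sum_congr rfl fun w hw => ?_
    rw [Finsupp.sub_apply, single_apply, if_neg (ne_of_mem_erase hw).symm, sub_zero]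
  rw [h1, Finsupp.sub_apply, single_eq_same]
  have h2 : (P v - ε).natAbs + 1 = (P v).natAbs := by
    rcases lt_trichotomy (P v) 0 with h | h | h
    · rw [hε, Int.sign_eq_neg_one_of_neg h]; omega
    · exact absurd h hv0
    · rw [hε, Int.sign_eq_one_of_pos h]; omega
  omega

/-- integral linear combinations -/
noncomputable def lc (x : A → ℤ) : (A →₀ ℤ) →ₗ[ℤ] ℤ := Finsupp.linearCombination ℤ x

theorem lc_single (x : A → ℤ) (v : A) (c : ℤ) : lc x (single v c) = c * x v := by
  simp [lc]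

theorem lc_apply (x : A → ℤ) (P : A →₀ ℤ) : lc x P = ∑ v ∈ P.support, P v * x v := by
  simp [lc, Finsupp.linearCombination_apply, Finsupp.sum]

/-- bounded combinations of bounded elements are bounded -/
theorem W_lc {K : ℕ} (x : A → ℤ) (hx : ∀ v, W Q K (x v)) (N : ℕ) : ∀ P : A →₀ ℤ, l1 P ≤ N →
    W Q (N * K) (lc x P) := by
  induction N with
  | zero =>
    intro P hP
    have : P = 0 := by
      by_contra h
      obtain ⟨v, ε, P', _, _, h1⟩ := l1_peel P h
      omega
    subst this
    rw [map_zero]; exact W.zero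
  | succ N ih =>
    intro P hP
    by_cases h : P = 0
    · subst h; rw [map_zero]; exact W.zero
    obtain ⟨v, ε, P', hε, hPP, h1⟩ := l1_peel P h
    rw [hPP, map_add, lc_single, add_mul, one_mul]
    refine (ih P' (by omega)).add ?_
    have := (hx v).zsmul ε
    rcases hε with rfl | rfl
    · simpa using this
    · simpa using this

/-- a map which is additive up to bounded errors is compatible with bounded combinations -/
theorem quasi {f : ℤ → ℤ} {C : ℕ} (hf : ∀ x y, W Q C (f (x + y) - (f x + f y))) (N : ℕ) :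
    ∃ K, ∀ (x : A → ℤ) (P : A →₀ ℤ), l1 P ≤ N → W Q K (f (lc x P) - lc (fun v => f (x v)) P) := by
  have h0 : W Q C (f 0) := by
    have := (hf 0 0).neg
    rw [add_zero] at this
    exact this.congr (by ring)
  have hn : ∀ x, W Q (C + C) (f (-x) + f x) := by
    intro x
    have := (hf x (-x))
    rw [add_neg_cancel] at this
    exact (h0.sub this).congr (by ring)
  refine ⟨C + N * (C + (C + C)), ?_⟩
  induction N with
  | zero =>
    intro x P hP
    have : P = 0 := by
      by_contra h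
      obtain ⟨v, ε, P', _, _, h1⟩ := l1_peel P h
      omega
    subst this
    rw [map_zero, map_zero, sub_zero]
    exact h0.mono (by omega)
  | succ N ih =>
    intro x P hP
    by_cases h : P = 0
    · subst h
      rw [map_zero, map_zero, sub_zero]
      exact h0.mono (by omega)
    obtain ⟨v, ε, P', hε, hPP, h1⟩ := l1_peel P h
    have h2 := ih x P' (by omega)
    have h3 := hf (lc x P') (ε * x v)
    rw [hPP, map_add, map_add, lc_single, lc_single]
    have h4 : W Q (C + C) (f (ε * x v) - ε * f (x v)) := by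
      rcases hε with rfl | rfl
      · simp only [one_mul, sub_self]; exact W.zero
      · have := hn (x v)
        exact this.congr (by rw [neg_one_mul]; ring)
    refine W.mono ((h2.add (h3.add h4)).congr ?_) (by rw [add_mul]; omega)
    ring

end l1

end Pool.Agent.R496.CZ
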