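import Pool.Agent.R496.CZ.Lift
import Pool.Agent.R496.CZ.Word

/-! The vertices and edges of the half line complexes, and the numbers attached to them. -/

set_option autoImplicit false

namespace Pool.Agent.R496.CZ

open Finset Finsupp

section

variable (R : Type) [CommRing R]

/-- the number `∏ q i ^ (P * v i)` -/
def val (q : ℕ → ℕ) (P : ℕ) : ∀ a, (X R a).S 0 → ℕ
  | 0 => fun _ => 1
  | a + 1 => fun v : (X R a).S 0 × ℕ => val q P a v.1 * q a ^ (P * v.2)

/-- the distance -/
def dsn : ∀ a, (X R a).S 0 → (X R a).S 0 → ℕ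
  | 0 => fun _ _ => 0
  | a + 1 => fun v w : (X R a).S 0 × ℕ => dsn a v.1 w.1 + ((v.2 - w.2) + (w.2 - v.2))

/-- the origin -/
def org : ∀ a, (X R a).S 0
  | 0 => (() : Unit)
  | a + 1 => ((org a, 0) : (X R a).S 0 × ℕ)

variable {R}

theorem val_org (q : ℕ → ℕ) (P : ℕ) (a : ℕ) : val R q P a (org R a) = 1 := by
  induction a with
  | zero => rfl
  | succ a ih =>
    change val R q P a (org R a) * q a ^ (P * 0) = 1
    rw [ih]; simp

theorem spl_single_inl {A B : Type} (a : A) (r : R) :
    spl A B (single (Sum.inl a) r) = (single a r, 0) := by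
  classical
  refine Prod.ext ?_ ?_
  · ext b
    rw [spl_fst, single_apply, single_apply]
    simp [Sum.inl.injEq]
  · ext b
    rw [spl_snd, single_apply]
    simp

theorem spl_single_inr {A B : Type} (b : B) (r : R) :
    spl A B (single (Sum.inr b) r) = (0, single b r) := by
  classical
  refine Prod.ext ?_ ?_
  · ext a
    rw [spl_fst, single_apply]
    simp
  · ext a
    rw [spl_snd, single_apply, single_apply]
    simp [Sum.inr.injEq]

theorem xt_emb {A B : Type} (D : (A →₀ R) →ₗ[R] (B →₀ R)) (m : ℕ) (x : A →₀ R) :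
    xt D (emb m x) = emb m (D x) := by
  refine sl_ext fun n => ?_
  rw [sl_xt, sl_emb, sl_emb]
  split_ifs <;> simp

theorem ph_single {A : Type} (a : A) (m : ℕ) (r : R) :
    ph (single (a, m) r) = single (a, m) r - single (a, m + 1) r := by
  rw [ph_apply, sh, Finsupp.lmapDomain_apply, mapDomain_single]

theorem vert_aux {A : Type} (b : A) (m k : ℕ) : ∃ y : A × ℕ →₀ R, sz y ≤ k ∧
    ph y = single (b, m) 1 - single (b, m + k) 1 := by
  induction k with
  | zero => exact ⟨0, by rw [sz_zero], by rw [map_zero, add_zero, sub_self]⟩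
  | succ k ih =>
    obtain ⟨y, h1, h2⟩ := ih
    refine ⟨y + single (b, m + k) 1, (sz_add _ _).trans (Nat.add_le_add h1 (sz_single _ _)), ?_⟩
    rw [map_add, h2, ph_single, add_assoc m k 1]
    abel

theorem vert {A : Type} (b : A) (m n : ℕ) : ∃ y : A × ℕ →₀ R, sz y ≤ (m - n) + (n - m) ∧
    ph y = single (b, m) 1 - single (b, n) 1 := by
  rcases le_total m n with h | h
  · obtain ⟨y, h1, h2⟩ := vert_aux (R := R) b m (n - m)
    refine ⟨y, h1.trans (by omega), ?_⟩
    rw [h2, Nat.add_sub_cancel' h]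
  · obtain ⟨y, h1, h2⟩ := vert_aux (R := R) b n (m - n)
    refine ⟨-y, by rw [sz_neg]; omega, ?_⟩
    rw [map_neg, h2, Nat.add_sub_cancel' h]
    abel

theorem path (a : ℕ) (v w : (X R a).S 0) : ∃ u : (X R a).S 1 →₀ R, sz u ≤ dsn R a v w ∧
    (X R a).d 0 u = single v 1 - single w 1 := by
  induction a with
  | zero =>
    refine ⟨0, by rw [sz_zero]; exact Nat.zero_le _, ?_⟩
    have : v = w := Subsingleton.elim (α := Unit) v w
    rw [map_zero, this, sub_self]
  | succ a ih =>
    obtain ⟨v1, m⟩ : (X R a).S 0 × ℕ := v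
    obtain ⟨w1, n⟩ : (X R a).S 0 × ℕ := w
    obtain ⟨u, h1, h2⟩ := ih v1 w1
    obtain ⟨y, h3, h4⟩ := vert (R := R) w1 m n
    refine ⟨(sp (X R a).S 0).symm (emb m u, y), ?_, ?_⟩
    · exact (sz_sp_symm _ _).trans (Nat.add_le_add ((sz_emb _ _).trans h1) h3)
    · change pd (X R a) 0 _ = _
      rw [pd_zero, LinearEquiv.apply_symm_apply]
      simp only
      rw [xt_emb, h2, h4, map_sub, emb_single, emb_single]
      exact (by abel : single (v1, m) (1 : R) - single (w1, m) 1 +
        (single (w1, m) 1 - single (w1, n) 1) = single (v1, m) 1 - single (w1, n) 1)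

theorem edge (q : ℕ → ℕ) (P : ℕ) (a : ℕ) (e : (X R a).S 1) : ∃ (v w : (X R a).S 0) (i : ℕ),
    i < a ∧ (X R a).d 0 (single e 1) = single v 1 - single w 1 ∧
      val R q P a w = val R q P a v * q i ^ P := by
  induction a with
  | zero => exact Empty.elim e
  | succ a ih =>
    obtain (⟨e', m⟩ | ⟨v, m⟩) : ((X R a).S 1 × ℕ) ⊕ ((X R a).S 0 × ℕ) := e
    · obtain ⟨v, w, i, hi, h1, h2⟩ := ih e'
      refine ⟨((v, m) : (X R a).S 0 × ℕ), ((w, m) : (X R a).S 0 × ℕ), i, by omega, ?_, ?_⟩
      · have h3 : sp (X R a).S 0 (single (Sum.inl (e', m)) (1 : R)) = (single (e', m) 1, 0) :=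
          spl_single_inl (A := (X R a).S 1 × ℕ) (B := (X R a).S 0 × ℕ) (e', m) (1 : R)
        have h4 : ∀ z : ((X R a).S 1 × ℕ →₀ R) × ((X R a).S 0 × ℕ →₀ R),
            z = (single (e', m) 1, 0) → xt ((X R a).d 0) z.1 + ph z.2 =
              single (v, m) 1 - single (w, m) 1 := by
          rintro _ rfl
          simp only [map_zero, add_zero]
          rw [xt_single, h1, map_sub, emb_single, emb_single]
        exact (pd_zero (X R a) _).trans (h4 _ h3)
      · change val R q P a w * q a ^ (P * m) = val R q P a v * q a ^ (P * m) * q i ^ P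
        rw [h2]; ring
    · refine ⟨((v, m) : (X R a).S 0 × ℕ), ((v, m + 1) : (X R a).S 0 × ℕ), a, by omega, ?_, ?_⟩
      · have h3 : sp (X R a).S 0 (single (Sum.inr (v, m)) (1 : R)) = (0, single (v, m) 1) :=
          spl_single_inr (A := (X R a).S 1 × ℕ) (B := (X R a).S 0 × ℕ) (v, m) (1 : R)
        have h4 : ∀ z : ((X R a).S 1 × ℕ →₀ R) × ((X R a).S 0 × ℕ →₀ R),
            z = (0, single (v, m) 1) → xt ((X R a).d 0) z.1 + ph z.2 =
              single (v, m) 1 - single (v, m + 1) 1 := by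
          rintro _ rfl
          simp only [map_zero, zero_add]
          exact ph_single _ _ _
        exact (pd_zero (X R a) _).trans (h4 _ h3)
      · change val R q P a v * q a ^ (P * (m + 1)) = val R q P a v * q a ^ (P * m) * q a ^ P
        ring

end

/-- `q 0, …, q (a - 1)` are the primes of `Q` other than `p` -/
structure En (p : ℕ) (Q : Finset ℕ) (a : ℕ) (q : ℕ → ℕ) : Prop where
  prime : ∀ i < a, (q i).Prime
  ne : ∀ i < a, q i ≠ p
  mem : ∀ i < a, q i ∈ Q
  inj : ∀ i < a, ∀ j < a, q i = q j → i = j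
  surj : ∀ l ∈ Q, l ≠ p → ∃ i < a, q i = l

variable {R : Type} [CommRing R]

theorem val_pos {q : ℕ → ℕ} {P a : ℕ} (hq : ∀ i < a, (q i).Prime) (v : (X R a).S 0) :
    0 < val R q P a v := by
  induction a with
  | zero => exact Nat.one_pos
  | succ a ih =>
    obtain ⟨v1, m⟩ : (X R a).S 0 × ℕ := v
    exact Nat.mul_pos (ih (fun i hi => hq i (by omega)) v1) (Nat.pow_pos (hq a (by omega)).pos)

theorem val_dvd {q : ℕ → ℕ} {P a : ℕ} (hq : ∀ i < a, (q i).Prime) (v : (X R a).S 0) {l : ℕ}
    (hl : l.Prime) (h : l ∣ val R q P a v) : ∃ i < a, l = q i := by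
  induction a with
  | zero => exact absurd (Nat.dvd_one.1 h) hl.one_lt.ne'
  | succ a ih =>
    obtain ⟨v1, m⟩ : (X R a).S 0 × ℕ := v
    rcases (hl.dvd_mul (m := val R q P a v1) (n := q a ^ (P * m))).1 h with h1 | h1
    · obtain ⟨i, hi, h2⟩ := ih (fun i hi => hq i (by omega)) v1 h1
      exact ⟨i, by omega, h2⟩
    · exact ⟨a, by omega, (Nat.prime_dvd_prime_iff_eq hl (hq a (by omega))).1
        (hl.dvd_of_dvd_pow h1)⟩

theorem val_mod {q : ℕ → ℕ} {p a : ℕ} (hp : p.Prime) (hq : ∀ i < a, (q i).Prime)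
    (hne : ∀ i < a, q i ≠ p) (v : (X R a).S 0) : ((val R q (p - 1) a v : ℕ) : ZMod p) = 1 := by
  have := Fact.mk hp
  induction a with
  | zero => exact Nat.cast_one
  | succ a ih =>
    obtain ⟨v1, m⟩ : (X R a).S 0 × ℕ := v
    have h1 := ih (fun i hi => hq i (by omega)) (fun i hi => hne i (by omega)) v1
    have h2 : ((val R q (p - 1) a v1 * q a ^ ((p - 1) * m) : ℕ) : ZMod p) = 1 := by
      rw [Nat.cast_mul, h1, one_mul, pow_mul, Nat.cast_pow, Nat.cast_pow,
        ZMod.pow_card_sub_one_eq_one, one_pow]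
      intro h0
      have h3 := (ZMod.natCast_eq_zero_iff (q a) p).1 h0
      exact hne a (by omega) ((Nat.prime_dvd_prime_iff_eq hp (hq a (by omega))).1 h3).symm
    exact h2

theorem val_QS {p : ℕ} {Q : Finset ℕ} {q : ℕ → ℕ} {P a : ℕ} (h : En p Q a q)
    (v : (X R a).S 0) : QS Q (val R q P a v : ℤ) := by
  refine ⟨by exact_mod_cast (val_pos h.prime v).ne', fun l hl hd => ?_⟩
  obtain ⟨i, hi, rfl⟩ := val_dvd h.prime v hl (by exact_mod_cast hd)
  exact h.mem i hi

theorem dsn_le {q : ℕ → ℕ} {P a : ℕ} (hP : 1 ≤ P) (hq : ∀ i < a, (q i).Prime)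
    (hi : ∀ i < a, ∀ j < a, q i = q j → i = j) (v w : (X R a).S 0) :
    dsn R a v w ≤ ∑ i ∈ range a,
      (padicValRat (q i) ((val R q P a v : ℚ) / (val R q P a w : ℚ))).natAbs := by
  induction a with
  | zero => exact Nat.zero_le _
  | succ a ih =>
    obtain ⟨v1, m⟩ : (X R a).S 0 × ℕ := v
    obtain ⟨w1, n⟩ : (X R a).S 0 × ℕ := w
    have hq' : ∀ i < a, (q i).Prime := fun i hi => hq i (by omega)
    have ih' := ih hq' (fun i hi' j hj => hi i (by omega) j (by omega)) v1 w1
    have hv0 : (val R q P a v1 : ℚ) ≠ 0 := by exact_mod_cast (val_pos hq' v1).ne'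
    have hw0 : (val R q P a w1 : ℚ) ≠ 0 := by exact_mod_cast (val_pos hq' w1).ne'
    have hqa : (q a : ℚ) ≠ 0 := by exact_mod_cast (hq a (by omega)).ne_zero
    have e1 : ((val R q P (a + 1) ((v1, m) : (X R a).S 0 × ℕ) : ℕ) : ℚ) =
        val R q P a v1 * (q a : ℚ) ^ (P * m) := by
      change ((val R q P a v1 * q a ^ (P * m) : ℕ) : ℚ) = _
      push_cast; rfl
    have e2 : ((val R q P (a + 1) ((w1, n) : (X R a).S 0 × ℕ) : ℕ) : ℚ) =
        val R q P a w1 * (q a : ℚ) ^ (P * n) := by
      change ((val R q P a w1 * q a ^ (P * n) : ℕ) : ℚ) = _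
      push_cast; rfl
    rw [e1, e2, sum_range_succ]
    have key : ∀ l : ℕ, l.Prime → padicValRat l ((val R q P a v1 * (q a : ℚ) ^ (P * m)) /
        (val R q P a w1 * (q a : ℚ) ^ (P * n))) =
        padicValRat l ((val R q P a v1 : ℚ) / val R q P a w1) +
          (padicValRat l (q a : ℚ)) * ((P * m : ℕ) - (P * n : ℕ)) := by
      intro l hl
      have := Fact.mk hl
      rw [padicValRat.div (mul_ne_zero hv0 (pow_ne_zero _ hqa))
        (mul_ne_zero hw0 (pow_ne_zero _ hqa)), padicValRat.mul hv0 (pow_ne_zero _ hqa),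
        padicValRat.mul hw0 (pow_ne_zero _ hqa), padicValRat.pow, padicValRat.pow,
        padicValRat.div hv0 hw0]
      ring
    have h1 : ∑ i ∈ range a, (padicValRat (q i) ((val R q P a v1 * (q a : ℚ) ^ (P * m)) /
        (val R q P a w1 * (q a : ℚ) ^ (P * n)))).natAbs =
        ∑ i ∈ range a, (padicValRat (q i) ((val R q P a v1 : ℚ) / val R q P a w1)).natAbs := by
      refine sum_congr rfl fun i hi' => ?_
      have hia := mem_range.1 hi'
      rw [key (q i) (hq' i hia)]
      have h2 : padicValRat (q i) (q a : ℚ) = 0 := by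
        rw [padicValRat.of_nat]
        have h3 : padicValNat (q i) (q a) = 0 := by
          apply padicValNat.eq_zero_of_not_dvd
          intro hd
          have h4 := (Nat.prime_dvd_prime_iff_eq (hq' i hia) (hq a (by omega))).1 hd
          have := hi i (by omega) a (by omega) h4
          omega
        rw [h3]; rfl
      rw [h2, zero_mul, add_zero]
    have h2 : (m - n) + (n - m) ≤ (padicValRat (q a) ((val R q P a v1 * (q a : ℚ) ^ (P * m)) /
        (val R q P a w1 * (q a : ℚ) ^ (P * n)))).natAbs := by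
      have hpa := hq a (by omega)
      have := Fact.mk hpa
      rw [key (q a) hpa]
      have hz : ∀ u : (X R a).S 0, padicValNat (q a) (val R q P a u) = 0 := by
        intro u
        apply padicValNat.eq_zero_of_not_dvd
        intro hd
        obtain ⟨i, hia, h4⟩ := val_dvd hq' u hpa hd
        have := hi a (by omega) i (by omega) h4
        omega
      have h3 : padicValRat (q a) ((val R q P a v1 : ℚ) / val R q P a w1) = 0 := by
        rw [padicValRat.div hv0 hw0, padicValRat.of_nat, padicValRat.of_nat, hz, hz]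
        simp
      have h4 : padicValRat (q a) (q a : ℚ) = 1 := by
        rw [padicValRat.of_nat, padicValNat_self]; rfl
      rw [h3, h4, zero_add, one_mul]
      have h5 : ((P * m : ℕ) : ℤ) - (P * n : ℕ) = P * ((m : ℤ) - n) := by push_cast; ring
      rw [h5, Int.natAbs_mul]
      have h6 : (m - n) + (n - m) = ((m : ℤ) - n).natAbs := by omega
      rw [h6]
      have h7 : 1 ≤ ((P : ℤ)).natAbs := by simpa using hP
      calc ((m : ℤ) - n).natAbs = 1 * ((m : ℤ) - n).natAbs := (one_mul _).symm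
        _ ≤ _ := Nat.mul_le_mul_right _ h7
    change dsn R a v1 w1 + ((m - n) + (n - m)) ≤ _
    rw [h1]
    exact Nat.add_le_add ih' h2

end Pool.Agent.R496.CZ
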