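import Pool.Agent.R496.CZ.Pts
import Pool.Agent.R496.CZ.Clus

/-! The `p`-torsion of the coarse group: representation and detection of zero. -/

set_option autoImplicit false

namespace Pool.Agent.R496.CZ

open Finset Finsupp TH951.NF

section

variable {p : ℕ} {Q : Finset ℕ} {a : ℕ} {q : ℕ → ℕ}

/-- the coefficients -/
abbrev Rp (p : ℕ) := ZMod p

/-- the vertices -/
abbrev Pt (p a : ℕ) := (X (ZMod p) a).S 0

/-- the numbers -/
noncomputable abbrev vl (p : ℕ) (q : ℕ → ℕ) (a : ℕ) (v : Pt p a) : ℕ := val (ZMod p) q (p - 1) a v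

/-- the torsion elements -/
noncomputable def xx (p : ℕ) (q : ℕ → ℕ) (a : ℕ) (v : Pt p a) : ℤ := ((vl p q a v : ℤ) - 1) / p

theorem mul_xx (hp : p.Prime) (h : En p Q a q) (v : Pt p a) :
    (p : ℤ) * xx p q a v = (vl p q a v : ℤ) - 1 := by
  have h1 := val_mod hp h.prime h.ne v (R := ZMod p)
  have h2 : ((((vl p q a v : ℤ) - 1 : ℤ)) : ZMod p) = 0 := by
    push_cast
    rw [h1, sub_self]
  exact Int.mul_ediv_cancel' ((ZMod.intCast_zmod_eq_zero_iff_dvd _ p).1 h2)

theorem xx_org (p : ℕ) (q : ℕ → ℕ) (a : ℕ) : xx p q a (org (ZMod p) a) = 0 := by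
  rw [xx, vl, val_org]; simp

/-- decomposition of units -/
theorem dec (R : Type) [CommRing R] (P : ℕ) (hP : 1 ≤ P) (a : ℕ) (hq : ∀ i < a, (q i).Prime) :
    ∃ U : ℕ, ∀ s : ℕ, s ≠ 0 → (∀ l : ℕ, l.Prime → l ∣ s → ∃ i < a, l = q i) →
      ∃ (v : (X R a).S 0) (u : ℕ), s = u * val R q P a v ∧ u ≤ U := by
  induction a with
  | zero =>
    refine ⟨1, fun s hs h => ⟨(() : Unit), 1, ?_, le_rfl⟩⟩
    have h1 : s = 1 := by
      by_contra hne
      obtain ⟨l, hl, hd⟩ := Nat.exists_prime_and_dvd hne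
      obtain ⟨i, hi, _⟩ := h l hl hd
      omega
    rw [h1]; rfl
  | succ a ih =>
    obtain ⟨U, hU⟩ := ih (fun i hi => hq i (by omega))
    refine ⟨U * q a ^ P, fun s hs h => ?_⟩
    have hqa := hq a (by omega)
    obtain ⟨n, s', hns', hs'⟩ := Nat.exists_eq_pow_mul_and_not_dvd hs (q a) hqa.ne_one
    have hs'0 : s' ≠ 0 := by rintro rfl; exact hs (by rw [hs', mul_zero])
    obtain ⟨v, u, h1, h2⟩ := hU s' hs'0 (fun l hl hd => by
      obtain ⟨i, hi, h3⟩ := h l hl (hs' ▸ hd.mul_left _)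
      refine ⟨i, ?_, h3⟩
      by_contra hia
      have : i = a := by omega
      rw [this] at h3
      exact hns' (h3 ▸ hd))
    refine ⟨((v, n / P) : (X R a).S 0 × ℕ), u * q a ^ (n % P), ?_, ?_⟩
    · change s = u * q a ^ (n % P) * (val R q P a v * q a ^ (P * (n / P)))
      rw [hs', h1]
      conv_lhs => rw [← Nat.div_add_mod n P]
      rw [pow_add]; ring
    · refine Nat.mul_le_mul h2 (Nat.pow_le_pow_right hqa.pos ?_)
      exact (Nat.mod_lt _ (by omega)).le

theorem dec_int (hp : p.Prime) (h : En p Q a q) : ∃ U : ℕ, ∀ s : ℤ, QS Q s → ¬ (p : ℤ) ∣ s →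
    ∃ (v : Pt p a) (u : ℤ), s = u * vl p q a v ∧ u.natAbs ≤ U := by
  obtain ⟨U, hU⟩ := dec (ZMod p) (p - 1) (by have := hp.two_le; omega) a h.prime
  refine ⟨U, fun s hs hps => ?_⟩
  obtain ⟨v, u, h1, h2⟩ := hU s.natAbs (Int.natAbs_ne_zero.2 hs.1) (fun l hl hd => by
    have hd' : (l : ℤ) ∣ s := Int.natCast_dvd.2 hd
    obtain ⟨i, hi, h3⟩ := h.surj l (hs.2 l hl hd') (by rintro rfl; exact hps hd')
    exact ⟨i, hi, h3.symm⟩)
  rcases Int.natAbs_eq s with h3 | h3
  · refine ⟨v, u, ?_, by simpa using h2⟩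
    rw [h3, h1]; push_cast; rfl
  · refine ⟨v, -u, ?_, by simpa using h2⟩
    rw [h3, h1]; push_cast; ring

theorem rep_aux (hp : p.Prime) (h : En p Q a q) : ∃ U : ℕ, ∀ l : List ℤ, (∀ s ∈ l, QS Q s) →
    ∃ (P : Pt p a →₀ ℤ) (E z : ℤ), l.sum = p * z + p * lc (xx p q a) P + E ∧
      E.natAbs ≤ l.length * U ∧ l1 P ≤ l.length * U ∧ W Q l.length z := by
  obtain ⟨U, hU⟩ := dec_int hp h
  refine ⟨U, fun l => ?_⟩
  induction l with
  | nil => exact fun _ => ⟨0, 0, 0, by simp, by simp, by rw [l1_zero]; exact Nat.zero_le _, W.zero⟩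
  | cons s l ih =>
    intro hl
    obtain ⟨P, E, z, h1, h2, h3, h4⟩ := ih (fun t ht => hl t (List.mem_cons_of_mem _ ht))
    have hs := hl s (List.mem_cons_self)
    rw [List.sum_cons, List.length_cons, h1]
    by_cases hps : (p : ℤ) ∣ s
    · obtain ⟨s', rfl⟩ := hps
      refine ⟨P, E, s' + z, by ring, ?_, ?_, ?_⟩
      · rw [add_mul]; omega
      · rw [add_mul]; omega
      · have hs' : QS Q s' := ⟨right_ne_zero_of_mul hs.1, fun l hl hd => hs.2 l hl (hd.mul_left _)⟩
        exact ((W.unit hs').add h4).mono (by omega)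
    · obtain ⟨v, u, h5, h6⟩ := hU s hs hps
      refine ⟨P + single v u, E + u, z, ?_, ?_, ?_, h4.mono (by omega)⟩
      · rw [map_add, lc_single, h5]
        have := mul_xx hp h v
        linear_combination (-u) * this
      · rw [add_mul]
        have := Int.natAbs_add_le E u
        omega
      · have := l1_add P (single v u)
        rw [l1_single] at this
        rw [add_mul]
        omega

/-- elements whose `p`-fold is bounded are bounded combinations of the `xx v` -/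
theorem rep (hp : p.Prime) (h : En p Q a q) (k : ℕ) : ∃ N K : ℕ, ∀ y : ℤ, W Q k (p * y) →
    ∃ P : Pt p a →₀ ℤ, l1 P ≤ N ∧ W Q K (y - lc (xx p q a) P) := by
  obtain ⟨U, hU⟩ := rep_aux hp h
  refine ⟨k * U, k * U + k, fun y ⟨l, hl1, hl2, hl3⟩ => ?_⟩
  obtain ⟨P, E, z, h1, h2, h3, h4⟩ := hU l hl2
  rw [hl3] at h1
  have hp0 : (p : ℤ) ≠ 0 := by exact_mod_cast hp.ne_zero
  have h5 : E = p * (y - lc (xx p q a) P - z) := by linear_combination (-1 : ℤ) * h1
  have h6 : (y - lc (xx p q a) P - z).natAbs ≤ E.natAbs := by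
    rw [h5, Int.natAbs_mul]
    have : 1 ≤ ((p : ℤ)).natAbs := by rw [Int.natAbs_natCast]; exact hp.pos
    exact Nat.le_mul_of_pos_left _ this
  have hle : l.length * U ≤ k * U := Nat.mul_le_mul_right _ hl1
  refine ⟨P, h3.trans hle, ?_⟩
  have h7 := (W.int (Q := Q) (y - lc (xx p q a) P - z)).add h4
  exact (h7.congr (by ring)).mono (by omega)

/-! ### Detection of zero -/

theorem unitAlm {D : ℕ} (hD : D ≠ 0) {s : ℤ} (hs : s ≠ 0)
    (h : ∀ l : ℕ, l.Prime → (l : ℤ) ∣ s → l ∣ D) : Alm D 1 (s : ℚ) := by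
  have h1 : s.natAbs ∣ D ^ s.natAbs := by
    have hs0 : s.natAbs ≠ 0 := Int.natAbs_ne_zero.2 hs
    rw [← Nat.factorization_le_iff_dvd hs0 (pow_ne_zero _ hD)]
    intro l
    rw [Nat.factorization_pow]
    simp only [Finsupp.smul_apply, smul_eq_mul]
    by_cases hl : l.Prime
    · by_cases hd : l ∣ s.natAbs
      · have h2 := h l hl (Int.natCast_dvd.2 hd)
        have h3 : 1 ≤ D.factorization l := (hl.dvd_iff_one_le_factorization hD).1 h2
        have h4 : s.natAbs.factorization l < s.natAbs := Nat.factorization_lt l hs0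
        calc s.natAbs.factorization l ≤ s.natAbs * 1 := by omega
          _ ≤ _ := Nat.mul_le_mul_left _ h3
      · rw [Nat.factorization_eq_zero_of_not_dvd hd]; exact Nat.zero_le _
    · rw [Nat.factorization_eq_zero_of_not_prime _ hl]; exact Nat.zero_le _
  obtain ⟨m, hm⟩ := Int.natAbs_dvd_natAbs.1 (by simpa using h1 : s.natAbs ∣ ((D : ℤ) ^ s.natAbs).natAbs)
  constructor
  · exact ⟨0, s, by simp⟩
  · refine ⟨s.natAbs, m, ?_⟩
    have hs' : (s : ℚ) ≠ 0 := by exact_mod_cast hs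
    have h2 : ((D : ℚ)) ^ s.natAbs = s * m := by exact_mod_cast hm
    rw [h2]; field_simp; push_cast; ring

/-- reduction modulo `p` -/
noncomputable def red (p a : ℕ) : (Pt p a →₀ ℤ) →+ (Pt p a →₀ ZMod p) :=
  Finsupp.mapRange.addMonoidHom (Int.castAddHom (ZMod p))

theorem red_single (v : Pt p a) (c : ℤ) : red p a (single v c) = single v (c : ZMod p) := by
  simp [red]

theorem red_apply (P : Pt p a →₀ ℤ) (v : Pt p a) : red p a P v = (P v : ZMod p) := by
  simp [red]

theorem sz_red (P : Pt p a →₀ ℤ) : sz (red p a P) ≤ l1 P := by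
  refine le_trans (card_le_card ?_) (card_le_l1 P)
  intro v hv
  rw [Finsupp.mem_support_iff] at hv ⊢
  intro h0
  apply hv
  rw [red_apply, h0]; simp

theorem zero_det (hp : p.Prime) (h : En p Q a q) (hQ : ∀ l ∈ Q, l.Prime) (N k : ℕ) :
    ∃ K : ℕ, ∀ P : Pt p a →₀ ℤ, lc (fun _ => 1) P = 0 → l1 P ≤ N → W Q k (lc (xx p q a) P) →
      ∃ w : (X (ZMod p) a).S 1 →₀ ZMod p, sz w ≤ K ∧ (X (ZMod p) a).d 0 w = red p a P := by
  classical
  have := Fact.mk hp
  set D : ℕ := p * ∏ l ∈ Q, l with hDdef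
  have hD : D ≠ 0 := Nat.mul_ne_zero hp.ne_zero (prod_ne_zero_iff.2 fun l hl => (hQ l hl).ne_zero)
  obtain ⟨F, hF⟩ := clus D hD (N + k) N.factorial (Nat.factorial_pos N)
  -- the finite set of ratios
  set Z : Finset ℚ := (Finset.Icc (-(N : ℤ)) N).image (fun z : ℤ => (z : ℚ)) with hZ
  set G : Finset ℚ := Finset.image₂ (· * ·) (Finset.image₂ (· / ·) F F)
    (Finset.image₂ (· / ·) Z Z) with hG
  set B : ℚ → ℕ := fun r => ∑ i ∈ range a, (padicValRat (q i) r).natAbs with hB
  set K1 : ℕ := ∑ r ∈ G, B r with hK1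
  refine ⟨N * K1, fun P hmass hN ⟨l, hl1, hl2, hl3⟩ => ?_⟩
  let J := {v // v ∈ P.support} ⊕ Fin l.length
  let θ : J → ℚ := Sum.elim (fun v => (P v.1 : ℚ) * (vl p q a v.1 : ℚ))
    (fun i => -((p : ℚ) * (l.get i : ℚ)))
  have hcardJ : Fintype.card J ≤ N + k := by
    rw [Fintype.card_sum, Fintype.card_coe, Fintype.card_fin]
    have := card_le_l1 P
    omega
  have hθ0 : ∀ j, θ j ≠ 0 := by
    rintro (⟨v, hv⟩ | i)
    · exact mul_ne_zero (by exact_mod_cast Finsupp.mem_support_iff.1 hv)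
        (by exact_mod_cast (val_pos h.prime v).ne')
    · exact neg_ne_zero.2 (mul_ne_zero (by exact_mod_cast hp.ne_zero)
        (by exact_mod_cast (hl2 _ (List.get_mem l i)).1))
  have hval : ∀ v : Pt p a, (vl p q a v : ℤ) = p * xx p q a v + 1 := fun v => by
    rw [mul_xx hp h v]; ring
  have hsum : ∑ j, θ j = 0 := by
    rw [Fintype.sum_sum_type]
    simp only [θ, Sum.elim_inl, Sum.elim_inr]
    rw [sum_neg_distrib, ← Finset.mul_sum]
    have e1 : ∑ i : Fin l.length, (l.get i : ℚ) = ((l.sum : ℤ) : ℚ) := by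
      have : l.sum = ∑ i : Fin l.length, l.get i := by
        conv_lhs => rw [← List.ofFn_get l]
        rw [List.sum_ofFn]
      rw [this]; push_cast; rfl
    have e2 : ∑ v : {v // v ∈ P.support}, (P v.1 : ℚ) * (vl p q a v.1 : ℚ) =
        ((∑ v ∈ P.support, P v * (vl p q a v : ℤ) : ℤ) : ℚ) := by
      rw [Finset.sum_coe_sort P.support (fun v => (P v : ℚ) * (vl p q a v : ℚ))]
      push_cast; rfl
    have e3 : ∑ v ∈ P.support, P v * (vl p q a v : ℤ) = p * lc (xx p q a) P := by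
      rw [lc_apply, Finset.mul_sum]
      have e4 : ∑ v ∈ P.support, P v = 0 := by
        have := hmass
        rw [lc_apply] at this
        simpa using this
      calc _ = ∑ v ∈ P.support, ((p : ℤ) * (P v * xx p q a v) + P v) :=
            sum_congr rfl fun v _ => by rw [hval v]; ring
        _ = _ := by rw [sum_add_distrib, e4, add_zero]
    rw [e1, e2, e3, hl3]; push_cast; ring
  have hAlm : ∀ j, Alm D N.factorial (θ j) := by
    rintro (⟨v, hv⟩ | i)
    · have h1 : Alm D (P v).natAbs (P v : ℚ) := Alm.int (Finsupp.mem_support_iff.1 hv)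
      have h2 : Alm D 1 ((vl p q a v : ℤ) : ℚ) := by
        refine unitAlm hD (val_QS h v).1 fun l hl hd => ?_
        exact (dvd_prod_of_mem (fun l => l) ((val_QS h v).2 l hl hd)).mul_left p
      have h3 := h1.mul h2
      rw [mul_one] at h3
      have h4 : Alm D N.factorial ((P v : ℚ) * ((vl p q a v : ℤ) : ℚ)) :=
        h3.of_dvd (Nat.dvd_factorial (Int.natAbs_pos.2 (Finsupp.mem_support_iff.1 hv))
          ((apply_le_l1 P v).trans hN))
      simpa [θ] using h4
    · have h1 : Alm D 1 (((-((p : ℤ) * l.get i) : ℤ)) : ℚ) := by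
        refine unitAlm hD (neg_ne_zero.2 (mul_ne_zero (by exact_mod_cast hp.ne_zero)
          (hl2 _ (List.get_mem l i)).1)) fun l' hl' hd => ?_
        rcases (Nat.prime_iff_prime_int.1 hl').dvd_or_dvd (dvd_neg.1 hd) with h2 | h2
        · exact (Int.natCast_dvd_natCast.1 h2).mul_right _
        · exact (dvd_prod_of_mem (fun l => l) ((hl2 _ (List.get_mem l i)).2 l' hl' h2)).mul_left p
      have h2 : Alm D N.factorial (((-((p : ℤ) * l.get i) : ℤ)) : ℚ) := h1.of_dvd (one_dvd _)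
      simpa [θ] using h2
  obtain ⟨κ, hκ1, hκ2⟩ := hF J hcardJ θ hθ0 hsum hAlm
  -- masses of the clusters
  have hcl : ∀ i : J, ∑ v : {v // v ∈ P.support} with κ (Sum.inl v) = i,
      ((P v.1 : ℤ) : ZMod p) = 0 := by
    intro i
    have h1 := hκ1 i
    rw [Finset.sum_filter, Fintype.sum_sum_type, ← Finset.sum_filter, ← Finset.sum_filter] at h1
    simp only [θ, Sum.elim_inl, Sum.elim_inr] at h1
    rw [sum_neg_distrib, ← Finset.mul_sum, ← sub_eq_add_neg, sub_eq_zero] at h1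
    have h2 : ∑ v : {v // v ∈ P.support} with κ (Sum.inl v) = i, P v.1 * (vl p q a v.1 : ℤ) =
        p * ∑ t : Fin l.length with κ (Sum.inr t) = i, l.get t := by
      exact_mod_cast h1
    have h3 := congrArg (fun z : ℤ => (z : ZMod p)) h2
    simp only [Int.cast_sum, Int.cast_mul, Int.cast_natCast, CharP.cast_eq_zero, zero_mul] at h3
    rw [← h3]
    refine sum_congr rfl fun v _ => ?_
    rw [val_mod hp h.prime h.ne v.1, mul_one]
  -- base points
  have hbase : ∀ v : {v // v ∈ P.support}, ∃ b : {v // v ∈ P.support},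
      κ (Sum.inl b) = κ (Sum.inl v) := fun v => ⟨v, rfl⟩
  let β : J → {v // v ∈ P.support} → {v // v ∈ P.support} := fun i v =>
    if hi : ∃ b : {v // v ∈ P.support}, κ (Sum.inl b) = i then hi.choose else v
  have hβ : ∀ v, κ (Sum.inl (β (κ (Sum.inl v)) v)) = κ (Sum.inl v) := by
    intro v
    have hi : ∃ b : {v // v ∈ P.support}, κ (Sum.inl b) = κ (Sum.inl v) := ⟨v, rfl⟩
    simp only [β, hi, dif_pos]
    exact hi.choose_spec
  have hdist : ∀ v : {v // v ∈ P.support},
      dsn (ZMod p) a v.1 (β (κ (Sum.inl v)) v).1 ≤ K1 := by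
    intro v
    set b := β (κ (Sum.inl v)) v with hb
    have h1 := hκ2 (Sum.inl v)
    have h2 := hκ2 (Sum.inl b)
    rw [hβ v] at h2
    have hκ0 := hθ0 (κ (Sum.inl v))
    have hv0 : (P v.1 : ℚ) ≠ 0 := by exact_mod_cast Finsupp.mem_support_iff.1 v.2
    have hb0 : (P b.1 : ℚ) ≠ 0 := by exact_mod_cast Finsupp.mem_support_iff.1 b.2
    have hvv : (vl p q a v.1 : ℚ) ≠ 0 := by exact_mod_cast (val_pos h.prime v.1).ne'
    have hbb : (vl p q a b.1 : ℚ) ≠ 0 := by exact_mod_cast (val_pos h.prime b.1).ne'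
    have h3 : (vl p q a v.1 : ℚ) / (vl p q a b.1 : ℚ) =
        ((θ (Sum.inl v) / θ (κ (Sum.inl v))) / (θ (Sum.inl b) / θ (κ (Sum.inl v)))) *
          ((P b.1 : ℚ) / (P v.1 : ℚ)) := by
      have e1 : θ (Sum.inl v) = (P v.1 : ℚ) * (vl p q a v.1 : ℚ) := rfl
      have e2 : θ (Sum.inl b) = (P b.1 : ℚ) * (vl p q a b.1 : ℚ) := rfl
      rw [e1, e2]
      field_simp
    have hmemZ : ∀ w : Pt p a, (P w : ℚ) ∈ Z := by
      intro w
      refine mem_image.2 ⟨P w, mem_Icc.2 ?_, rfl⟩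
      have := (apply_le_l1 P w).trans hN
      constructor <;> omega
    have h4 : (vl p q a v.1 : ℚ) / (vl p q a b.1 : ℚ) ∈ G := by
      rw [h3]
      exact mem_image₂_of_mem (mem_image₂_of_mem h1 h2) (mem_image₂_of_mem (hmemZ _) (hmemZ _))
    refine (dsn_le (P := p - 1) (by have := hp.two_le; omega) h.prime h.inj v.1 b.1).trans ?_
    exact single_le_sum (f := B) (fun _ _ => Nat.zero_le _) h4
  choose u hu1 hu2 using fun v : {v // v ∈ P.support} =>
    path (R := ZMod p) a v.1 (β (κ (Sum.inl v)) v).1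
  refine ⟨∑ v : {v // v ∈ P.support}, ((P v.1 : ℤ) : ZMod p) • u v, ?_, ?_⟩
  · refine (sz_sum _ _).trans ((sum_le_card_nsmul _ _ K1 fun v _ =>
      (sz_smul _ _).trans ((hu1 v).trans (hdist v))).trans ?_)
    rw [smul_eq_mul]
    refine Nat.mul_le_mul_right _ ?_
    rw [card_univ, Fintype.card_coe]
    exact (card_le_l1 P).trans hN
  · rw [map_sum]
    have e1 : ∀ v : {v // v ∈ P.support},
        (X (ZMod p) a).d 0 (((P v.1 : ℤ) : ZMod p) • u v) =
          single v.1 ((P v.1 : ℤ) : ZMod p) -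
            ((P v.1 : ℤ) : ZMod p) • single (β (κ (Sum.inl v)) v).1 (1 : ZMod p) := by
      intro v
      rw [map_smul, hu2, smul_sub, smul_single, smul_eq_mul, mul_one]
    rw [sum_congr rfl fun v _ => e1 v, sum_sub_distrib]
    have e2 : ∑ v : {v // v ∈ P.support}, ((P v.1 : ℤ) : ZMod p) •
        single (β (κ (Sum.inl v)) v).1 (1 : ZMod p) = 0 := by
      rw [← Finset.sum_fiberwise_of_maps_to (s := univ) (t := univ)
        (g := fun v : {v // v ∈ P.support} => κ (Sum.inl v)) (fun _ _ => mem_univ _)]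
      refine sum_eq_zero fun i _ => ?_
      by_cases hi : ∃ b : {v // v ∈ P.support}, κ (Sum.inl b) = i
      · have e3 : ∀ v ∈ univ.filter (fun v : {v // v ∈ P.support} => κ (Sum.inl v) = i),
            ((P v.1 : ℤ) : ZMod p) • single (β (κ (Sum.inl v)) v).1 (1 : ZMod p) =
              ((P v.1 : ℤ) : ZMod p) • single hi.choose.1 (1 : ZMod p) := by
          intro v hv
          have hvi := (mem_filter.1 hv).2
          have e4 : β (κ (Sum.inl v)) v = hi.choose := by
            rw [hvi]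
            simp only [β, hi, dif_pos]
          rw [e4]
        rw [sum_congr rfl e3, ← sum_smul, hcl i, zero_smul]
      · refine sum_eq_zero fun v hv => ?_
        exact absurd ⟨v, (mem_filter.1 hv).2⟩ hi
    rw [e2, sub_zero]
    have e5 : ∑ v : {v // v ∈ P.support}, single v.1 ((P v.1 : ℤ) : ZMod p) =
        red p a (∑ v ∈ P.support, single v (P v)) := by
      rw [map_sum, ← Finset.sum_coe_sort P.support]
      exact sum_congr rfl fun v _ => (red_single _ _).symm
    rw [e5]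
    congr 1
    exact Finsupp.sum_single P

end

end Pool.Agent.R496.CZ
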